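import Pool.Agent.EVZ.TPR

/-!
NO SHARED ORDERINGS in the form of the squad EV3: `EV3.Stmt_NSO`.
-/

set_option autoImplicit false

namespace Pool.Agent.EVZ

open Pool.Agent.EWG (VV vm iu QD vm_surj vm_mul vm_eq_zero vm_eq_iff Good vm_add_self)
open Pool.Agent.EWH (Two pf br pf1 pf3 W IsMap wmap FX)
open Pool.Agent.ETG (Zf Zh ND ZLoc ZFan Rig ZDec vmap)

theorem ordf_of {F : Type} [Field F] {φ : VV F →ₗ[ZMod 2] ZMod 2} (h : EV3.Ordf F φ) :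
    Ordf F φ where
  neg := h.neg
  zh := by
    intro v w hvw
    obtain ⟨a, rfl⟩ := vm_surj v
    obtain ⟨b, rfl⟩ := vm_surj w
    exact h.mul a b (hvw a b rfl rfl)

theorem tpair_fix {F K F' K' : Type} [Field F] [Field K] [Field F'] [Field K'] [Algebra F K]
    [Algebra F' K'] (h2 : Two F) (f : F →+* F') (E' : QD F' K') (hx : E'.x = -1)
    (hf : Finite (VV F')) (k : ℕ) (C : ZDec (Zf K) k) (hOS : C.OS) (j : Fin k) (g : K →+* K')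
    (hs : ∀ w : VV K', ∃ v, vmap g v = w) (hker : ∀ v, vmap g v = 0 ↔ C.p j v = 0)
    (hiso : ∀ v w, Zf K' (vmap g v) (vmap g w) ↔ Zf K (C.p j v) (C.p j w))
    (φ : VV F' →ₗ[ZMod 2] ZMod 2) (hφ : Ordf F' φ) : TPair F' φ := by
  have h2' : Two F' := h2.map f
  obtain ⟨X⟩ := EWH.q_fx F' K' h2' E'
  have hz := zf_iff h2' hx X
  refine tpair h2' hx hf X ?_ ?_ ?_ φ hφ
  · rcases hOS j with h | h
    · left
      intro v w w'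
      obtain ⟨v, rfl⟩ := hs v
      obtain ⟨w, rfl⟩ := hs w
      obtain ⟨w', rfl⟩ := hs w'
      rw [← map_add, ← hz, ← hz, ← hz, hiso, hiso, hiso, map_add]
      exact h v _ _
    · right
      obtain ⟨t, ht1, ht2, ht3⟩ := h
      refine ⟨vmap g t, ?_, ?_⟩
      · intro h0
        rw [hker, ht1] at h0
        exact ht2 h0
      · intro v hv
        obtain ⟨v, rfl⟩ := hs v
        rw [← hz, hiso, ht1] at hv
        rcases ht3 v hv with h4 | h4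
        · left; rw [hker]; exact h4
        · right
          apply z2_eq
          rw [← map_add, hker, map_add, h4, ht1, z2_add_self]
  · intro v hv
    obtain ⟨v, rfl⟩ := hs v
    rw [hker]
    apply C.nd
    intro w
    rw [← hiso, hz]
    exact hv _
  · obtain ⟨v, hv⟩ := C.ne j
    exact ⟨vmap g v, fun h => hv ((hker v).1 h)⟩

theorem q_nso : EV3.Stmt_NSO := by
  intro F K _ _ _ E h2 hx hf k C hOS j₁ j₂ hj F₁ F₂ _ _ f₁ f₂ h₁ h₂ _ _ φ₁ φ₂ hφ₁ hφ₂ hcon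
  obtain ⟨hf₁, K₁, i₁, a₁, E₁, g₁, hx₁, hg₁, hθ₁, -, hs₁, hk₁, hi₁⟩ := h₁
  obtain ⟨hf₂, K₂, i₂, a₂, E₂, g₂, hx₂, hg₂, hθ₂, -, hs₂, hk₂, hi₂⟩ := h₂
  have hGK : Good K := good_K h2 hx
  have hO1 := ordf_of hφ₁
  have hO2 := ordf_of hφ₂
  refine nso_proof F K F₁ K₁ F₂ K₂ h2 E E₁ E₂ hx hx₁ hx₂ f₁ g₁ f₂ g₂ hg₁ hθ₁ hg₂ hθ₂ ?_ φ₁ φ₂
    hO1 hO2 hcon (tpair_fix h2 f₁ E₁ hx₁ hf₁ k C hOS j₁ g₁ hs₁ hk₁ hi₁ φ₁ hO1)
    (tpair_fix h2 f₂ E₂ hx₂ hf₂ k C hOS j₂ g₂ hs₂ hk₂ hi₂ φ₂ hO2)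
  intro x y
  obtain ⟨u, rfl⟩ := hs₁ x
  obtain ⟨v, rfl⟩ := hs₂ y
  refine ⟨C.p j₁ u, C.p j₂ v, ?_, ?_, ?_, ?_, ?_⟩
  · apply z2_eq
    rw [← map_add, hk₁, map_add, C.idem, z2_add_self]
  · rw [hk₂, C.orth j₂ j₁ (Ne.symm hj)]
  · rw [hk₁, C.orth j₁ j₂ hj]
  · apply z2_eq
    rw [← map_add, hk₂, map_add, C.idem, z2_add_self]
  · rw [EV3.zh_iff EWH.q_cmp K hGK]
    have := C.perp j₁ u (C.p j₂ v)
    rwa [C.orth j₁ j₂ hj, add_zero] at this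

end Pool.Agent.EVZ
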