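import Pool.Agent.EVZ.ORD
import Pool.Agent.EWH.All

/-!
Maps between quadratic extensions; functoriality of `Zh`.
-/

set_option autoImplicit false

namespace Pool.Agent.EVZ

open Pool.Agent.EWG (VV vm iu QD vm_surj vm_mul vm_eq_zero vm_eq_iff vm_add_self)
open Pool.Agent.ETG (vmap Zh)
open Pool.Agent.EWH (Two pf br pf1 W IsMap wmap)

theorem vmap_vm' {K L : Type} [Field K] [Field L] (f : K →+* L) (a : Kˣ) :
    vmap f (vm a) = vm (Units.map f.toMonoidHom a) := rfl

section
variable {K L : Type} [Field K] [Field L]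

theorem zh_iff (h2 : Two K) (a b : Kˣ) : Zh K (vm a) (vm b) ↔ pf a b = 0 :=
  ⟨fun h => h a b rfl rfl, zh_of_pf EWH.q_rel h2 a b⟩

theorem zh_symm (v w : VV K) (h : Zh K v w) : Zh K w v := by
  intro a b ha hb
  rw [EWH.pf_comm]
  exact h b a hb ha

theorem zh_map (h2 : Two K) (f : K →+* L) (v w : VV K) (h : Zh K v w) :
    Zh L (vmap f v) (vmap f w) := by
  obtain ⟨a, rfl⟩ := vm_surj v
  obtain ⟨b, rfl⟩ := vm_surj w
  have h1 : pf a b = 0 := h a b rfl rfl
  obtain ⟨g, hg, -⟩ := EWH.q_map K L f
  rw [vmap_vm', vmap_vm']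
  apply zh_of_pf EWH.q_rel (h2.map f)
  have h3 : g (pf a b) = pf (Units.map f.toMonoidHom a) (Units.map f.toMonoidHom b) := by
    unfold pf pf1
    rw [map_mul, map_sub, map_sub, map_one, hg, hg]
  rw [← h3, h1, map_zero]

theorem zh_add (h2 : Two K) (v w w' : VV K) (h : Zh K v w) (h' : Zh K v w') :
    Zh K v (w + w') := by
  obtain ⟨q, hq, -, -, -, hq0, -⟩ := EWH.q_qbl K h2
  obtain ⟨a, rfl⟩ := vm_surj v
  obtain ⟨b, rfl⟩ := vm_surj w
  obtain ⟨c, rfl⟩ := vm_surj w'
  rw [← vm_mul, zh_iff h2, ← hq0, vm_mul, map_add, (hq0 a b).2 (h a b rfl rfl),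
    (hq0 a c).2 (h' a c rfl rfl), add_zero]

theorem zh_alt (h2 : Two K) (v : VV K) : Zh K v (v + vm (-1)) := by
  obtain ⟨a, rfl⟩ := vm_surj v
  rw [← vm_mul, zh_iff h2, mul_neg, mul_one]
  exact (EWH.q_bil K).2.2.2.1 a

theorem zh_zero (h2 : Two K) (v : VV K) : Zh K v 0 := by
  have := zh_add h2 v _ _ (zh_alt h2 v) (zh_alt h2 v)
  rwa [vm_add_self] at this

end

section
variable {F K F' K' : Type} [Field F] [Field K] [Algebra F K] [Field F'] [Field K']
  [Algebra F' K']

/-- the extension of a homomorphism of fields to quadratic extensions -/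
theorem qmap (E : QD F K) (E' : QD F' K') (f : F →+* F') (hx : f E.x = E'.x) :
    ∃ g : K →+* K', (∀ a, g (algebraMap F K a) = algebraMap F' K' (f a)) ∧
      g (E.θ : K) = E'.θ := by
  let g0 : K → K' := fun w => algebraMap F' K' (f (E.t w)) + algebraMap F' K' (f (E.s w)) * E'.θ
  have hθ : (E'.θ : K') * E'.θ = algebraMap F' K' (f E.x) := by
    rw [← pow_two, E'.sq, hx]
  have hmul : ∀ v w : K, E.t (v * w) = E.t v * E.t w + E.s v * E.s w * E.x ∧
      E.s (v * w) = E.t v * E.s w + E.s v * E.t w := by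
    intro v w
    have h : v * w = algebraMap F K (E.t v * E.t w + E.s v * E.s w * E.x) +
        algebraMap F K (E.t v * E.s w + E.s v * E.t w) * E.θ := by
      have hs := E.sq
      calc v * w = (algebraMap F K (E.t v) + algebraMap F K (E.s v) * E.θ) *
          (algebraMap F K (E.t w) + algebraMap F K (E.s w) * E.θ) := by
            rw [← E.dec v, ← E.dec w]
        _ = _ := by
            simp only [map_add, map_mul]
            rw [← hs]
            ring
    constructor
    · rw [h, map_add, E.t1, E.tθ, add_zero]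
    · rw [h, map_add, E.s1, E.sθ, zero_add]
  have ht1 : E.t 1 = 1 := by
    have := E.t1 1
    rwa [map_one] at this
  have hs1 : E.s 1 = 0 := by
    have := E.s1 1
    rwa [map_one] at this
  let g : K →+* K' :=
    { toFun := g0
      map_one' := by simp [g0, ht1, hs1]
      map_zero' := by simp [g0]
      map_add' := by
        intro v w
        simp only [g0, map_add]
        ring
      map_mul' := by
        intro v w
        simp only [g0]
        rw [(hmul v w).1, (hmul v w).2]
        simp only [map_add, map_mul]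
        have : algebraMap F' K' (f E.x) = (E'.θ : K') * E'.θ := hθ.symm
        rw [this]
        ring }
  refine ⟨g, ?_, ?_⟩
  · intro a
    show algebraMap F' K' (f (E.t (algebraMap F K a))) +
      algebraMap F' K' (f (E.s (algebraMap F K a))) * E'.θ = _
    rw [E.t1, E.s1, map_zero, map_zero, zero_mul, add_zero]
  · show algebraMap F' K' (f (E.t (E.θ : K))) + algebraMap F' K' (f (E.s (E.θ : K))) * E'.θ = _
    have h1 := E.tθ 1
    have h2 := E.sθ 1
    rw [map_one, one_mul] at h1 h2
    rw [h1, h2]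
    simp

/-- a homomorphism of quadratic extensions is determined on the base and on `θ` -/
theorem qmap_ext (E : QD F K) (g g' : K →+* K') (h : ∀ a, g (algebraMap F K a) =
    g' (algebraMap F K a)) (hθ : g (E.θ : K) = g' E.θ) : g = g' := by
  ext w
  rw [E.dec w, map_add, map_add, map_mul, map_mul, h, h, hθ]

/-- compatibility with the conjugation -/
theorem qmap_σ (E : QD F K) (E' : QD F' K') (f : F →+* F') (g : K →+* K')
    (hg : ∀ a, g (algebraMap F K a) = algebraMap F' K' (f a)) (hθ : g (E.θ : K) = E'.θ)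
    (w : K) : g (E.σ w) = E'.σ (g w) := by
  rw [E.dec w]
  simp only [map_add, map_mul, AlgEquiv.commutes, E.σθ, hg, hθ, E'.σθ, map_neg]

/-- compatibility with the norm -/
theorem qmap_nm (E : QD F K) (E' : QD F' K') (f : F →+* F') (g : K →+* K')
    (hg : ∀ a, g (algebraMap F K a) = algebraMap F' K' (f a)) (hθ : g (E.θ : K) = E'.θ)
    (w : Kˣ) : Units.map f.toMonoidHom (E.nm w) = E'.nm (Units.map g.toMonoidHom w) := by
  ext
  apply (algebraMap F' K').injective
  have h1 : algebraMap F' K' (E'.nm (Units.map g.toMonoidHom w)) =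
    g (w : K) * E'.σ (g w) := E'.nmσ _
  rw [h1, ← qmap_σ E E' f g hg hθ, ← map_mul, ← E.nmσ, hg]
  rfl

/-- compatibility with the inclusion of the base, on square classes -/
theorem qmap_iu (f : F →+* F') (g : K →+* K')
    (hg : ∀ a, g (algebraMap F K a) = algebraMap F' K' (f a)) (a : Fˣ) :
    Units.map g.toMonoidHom (iu F a : Kˣ) = iu F' (Units.map f.toMonoidHom a) := by
  ext
  exact hg a

end

end Pool.Agent.EVZ
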