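import Pool.Agent.EVZ.PY4
import Pool.Agent.EVZ.QMP
import Pool.Agent.EV3.GStmts

/-!
LCR: `K = F(√-1)` of local type without rigid elements: a corestriction is not `0`.
-/

set_option autoImplicit false

namespace Pool.Agent.EVZ

open Pool.Agent.EWG (VV vm iu QD vm_surj vm_mul vm_eq_zero vm_eq_iff Good vm_add_self)
open Pool.Agent.EWH (Two pf br pf1 pf3 W IsMap wmap FX)
open Pool.Agent.ETG (Zf Zh ND ZLoc Rig ZDec)

section
variable {F K : Type} [Field F] [Field K] [Algebra F K] {E : QD F K}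

/-- `-1` is a square in `K` -/
theorem good_K (h2 : Two F) (hx : E.x = -1) : Good K := by
  refine ⟨h2.map (algebraMap F K), E.θ, ?_⟩
  rw [E.sq, hx]
  simp

theorem m1_K (h2 : Two F) (hx : E.x = -1) : (vm (-1 : Kˣ) : VV K) = 0 := by
  rw [vm_eq_zero]
  refine ⟨E.θ, ?_⟩
  ext
  have := E.sq
  rw [hx] at this
  push_cast
  rw [← pow_two, this]
  simp

theorem zf_iff (h2 : Two F) (hx : E.x = -1) (X : FX E) (v w : VV K) :
    Zf K v w ↔ X.Q v w = 0 := by
  rw [← EV3.zh_iff EWH.q_cmp K (good_K h2 hx)]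
  obtain ⟨a, rfl⟩ := vm_surj v
  obtain ⟨b, rfl⟩ := vm_surj w
  rw [X.Q_zero]
  exact zh_iff (h2.map (algebraMap F K)) a b

/-- LRD -/
theorem lrd (h2 : Two F) (hx : E.x = -1) (X : FX E)
    (hnd : ∀ v : VV K, (∀ w, X.Q v w = 0) → v = 0) (hc : ∀ w y, X.cor (X.Q w y) = 0) (v : VV F)
    (hv : X.q (vm (-1)) v = 0) : v = 0 := by
  have h1 : ∀ w v, X.q (X.N w) v = 0 := by
    intro w v
    rw [← X.cor_Q]
    exact hc _ _
  -- the radical
  have h3 : ∀ r : VV F, (∀ v, X.q r v = 0) → r = 0 ∨ r = vm (-1) := by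
    intro r hr
    rw [← hx, ← X.ker_res]
    apply hnd
    intro w
    obtain ⟨f, hf⟩ := X.F4 r w (hr _)
    rw [map_add, ← X.rb_q, hr f, map_zero, add_zero] at hf
    exact hf
  rw [← hx, X.im_N] at hv
  obtain ⟨w, rfl⟩ := hv
  rcases h3 _ (h1 w) with h | h
  · exact h
  · exfalso
    -- all elements of `F` are in the radical
    have h4 : ∀ u : VV F, u = 0 ∨ u = vm (-1) := by
      intro u
      have h5 : X.q (vm E.x) u = 0 := by
        rw [hx, ← h]
        exact h1 w u
      rw [X.im_N] at h5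
      obtain ⟨w', rfl⟩ := h5
      exact h3 _ (h1 w')
    have h5 : ∀ y, X.N y = 0 → y = 0 := by
      intro y hy
      rw [X.ker_N] at hy
      obtain ⟨u, rfl⟩ := hy
      rw [X.ker_res, hx]
      exact h4 u
    have h6 : ∀ y, y = 0 ∨ y = w := by
      intro y
      rcases h4 (X.N y) with h7 | h7
      · exact Or.inl (h5 y h7)
      · right
        apply z2_eq
        apply h5
        rw [map_add, h7, h, z2_add_self]
    have h7 : w = 0 := by
      apply hnd
      intro y
      rcases h6 y with rfl | rfl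
      · rw [map_zero]
      · rw [X.Q_self, m1_K h2 hx, map_zero]
    have h8 : (vm (-1 : Fˣ) : VV F) = 0 := by
      rw [← h, h7, map_zero]
    rw [vm_eq_zero, ← hx] at h8
    exact E.ns h8

end

/-- LCR without hypotheses -/
theorem q_lcr : EV3.Stmt_LCR := by
  intro F K _ _ _ E h2 hx hf hND hLoc hne hnr X
  by_contra hcon
  push Not at hcon
  have hz := zf_iff h2 hx X
  have hnd : ∀ v : VV K, (∀ w, X.Q v w = 0) → v = 0 := fun v hv =>
    hND v (fun w => (hz v w).2 (hv w))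
  have hloc : ∀ v w w' : VV K, X.Q v w = 0 ∨ X.Q v w' = 0 ∨ X.Q v (w + w') = 0 := by
    intro v w w'
    have := hLoc v w w'
    simp only [LinearMap.id_apply] at this
    rwa [hz, hz, hz] at this
  have hpyt : ∀ v, X.q (vm (-1)) v = 0 → v = 0 := fun v hv => lrd h2 hx X hnd hcon v hv
  obtain ⟨t, ht⟩ := hne
  exact hnr ⟨t, ht, fun v hv => py4 h2 hx hf X hpyt hloc hnd t ht v ((hz t v).1 hv)⟩

end Pool.Agent.EVZ
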