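import Pool.Agent.EV3.GStmts
import Pool.Agent.ETG.All
import Pool.Agent.ETB.Gen

/-!
LRX: localisation of a field in which `-1` is a square at a component.
-/

set_option autoImplicit false

namespace Pool.Agent.EVZ

open Pool.Agent.EWG (VV vm iu QD vm_surj vm_mul vm_eq_zero vm_eq_iff Good)
open Pool.Agent.ETG (Zf Zh ND ZLoc ZFan Rig ZDec vmap vmap_comp Mark Fac ZR LZ)
open Pool.Agent.ETG.FIN_ (veq veq_apply veq_symm_apply)

theorem lrx_of (hZFL : ETG.Stmt_ZFL) (hZ : ETG.Stmt_ZMP) (hLZR : ETG.Stmt_LZR)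
    (hREA : ETG.Stmt_REA) : EV3.Stmt_LRX := by
  intro K _ hK hf k C hOS j
  obtain ⟨hLZ, -, -⟩ := hZFL K hK
  obtain ⟨a1, a2, a3, a4, a5⟩ := hLZR (VV K) (Zf K) hLZ k C hOS j
  let Ω := AlgebraicClosure K
  let K0 : Subfield Ω := (algebraMap K Ω).fieldRange
  have hb : Function.Bijective (algebraMap K Ω).rangeRestrictField :=
    ⟨fun a b h => (algebraMap K Ω).injective (by simpa using congrArg Subtype.val h),
      (algebraMap K Ω).rangeRestrictField_bijective.2⟩
  let e : K ≃+* K0 := RingEquiv.ofBijective (algebraMap K Ω).rangeRestrictField hb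
  have hK0 : Good K0 := hK.map (e : K →+* K0)
  have hz : ∀ a b, Zf K0 (veq e a) (veq e b) ↔ Zf K a b := by
    intro a b
    constructor
    · intro h
      have h1 := hZ K0 K (e.symm : K0 →+* K) hK0 _ _ h
      rw [← veq_symm_apply, ← veq_symm_apply, LinearEquiv.symm_apply_apply,
        LinearEquiv.symm_apply_apply] at h1
      exact h1
    · intro h
      exact hZ K K0 (e : K →+* K0) hK _ _ h
  have hp : ∀ v, ((C.p j).rangeRestrict ∘ₗ (veq e).symm.toLinearMap) (veq e v) =
      (C.p j).rangeRestrict v := by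
    intro v
    show (C.p j).rangeRestrict ((veq e).symm (veq e v)) = _
    rw [LinearEquiv.symm_apply_apply]
  have hM : Mark K0 (ZR (Zf K) (LinearMap.range (C.p j)))
      ((C.p j).rangeRestrict ∘ₗ (veq e).symm.toLinearMap) := by
    refine ⟨hK0, Finite.of_equiv _ (veq e).toEquiv, ?_⟩
    obtain ⟨s, h1, h2, h3, h4⟩ := a5
    refine ⟨(veq e).toLinearMap ∘ₗ s, ?_, ?_, ?_, ?_⟩
    · intro w
      rw [LinearMap.comp_apply (veq e).toLinearMap s]
      show ((C.p j).rangeRestrict ∘ₗ (veq e).symm.toLinearMap) (veq e (s w)) = w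
      rw [hp, h1]
    · intro w u hu
      obtain ⟨v, rfl⟩ := (veq e).surjective u
      have hu' : (C.p j).rangeRestrict v = 0 := by rw [← hp]; exact hu
      show Zf K0 (veq e (s w)) (veq e v)
      rw [hz]
      exact h2 w v hu'
    · intro v v' h
      obtain ⟨a, rfl⟩ := (veq e).surjective v
      obtain ⟨b, rfl⟩ := (veq e).surjective v'
      rw [hz] at h
      rw [hp, hp]
      exact h3 a b h
    · intro w w' h
      show Zf K0 (veq e (s w)) (veq e (s w'))
      rw [hz]
      exact h4 w w' h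
  obtain ⟨E, hE, hGE, h1, h2, h3⟩ := hREA Ω _ _ a1 a2 a3 a4 K0 _ hM
  have hg : ∀ v, vmap ((Subfield.inclusion hE).comp (e : K →+* K0)) v =
      vmap (Subfield.inclusion hE) (veq e v) := by
    intro v
    rw [veq_apply, vmap_comp]
  refine ⟨E, inferInstance, (Subfield.inclusion hE).comp (e : K →+* K0), hGE, ?_, ?_, ?_⟩
  · intro w
    obtain ⟨v, rfl⟩ := h1 w
    obtain ⟨v, rfl⟩ := (veq e).surjective v
    exact ⟨v, hg v⟩
  · intro v
    rw [hg, h2, hp]
    constructor
    · intro h; exact congrArg Subtype.val h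
    · intro h; exact Subtype.ext h
  · intro v w
    rw [hg, hg, h3, hp, hp]
    rfl

theorem q_lrx : EV3.Stmt_LRX :=
  lrx_of ETG.a_zfl ETG.a_zmp ETG.a_lzr (ETG.a_rea ETB.dsf ETB.tow)

end Pool.Agent.EVZ
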