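import Pool.Agent.ETG.IfaceV

/-!
Orderings of a field as functionals on its square classes (V3 step of the elementary type theorem,
problem MP_d26ff6_al).
-/

set_option autoImplicit false

namespace Pool.Agent.EVZ

open Pool.Agent.EWG (VV vm iu QD vm_surj vm_mul vm_eq_zero vm_eq_iff)
open Pool.Agent.ETG (vmap Zh)
open Pool.Agent.EWH (Two pf br pf1)

/-- an ordering of `K`: `0` on positive elements, `1` on negative elements -/
structure Ordf (K : Type) [Field K] (α : VV K →ₗ[ZMod 2] ZMod 2) : Prop where
  neg : α (vm (-1 : Kˣ)) = 1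
  zh : ∀ v w, Zh K v w → α v * α w = 0

/-- THE COMMON FIELD: two orderings of extensions `A`, `B` of `F` with the same restriction to `F`
have a common subfield `E` (embedded in `A` and in `B`), with the same ordering, such that an
element of `E` which is a square in `A` and in `B` is a square -/
def Stmt_NSE : Prop := ∀ (F A B : Type) [Field F] [Field A] [Field B] [Algebra F A]
  [Algebra F B], Two F → ∀ (α : VV A →ₗ[ZMod 2] ZMod 2) (β : VV B →ₗ[ZMod 2] ZMod 2),
  Ordf A α → Ordf B β → (∀ a : Fˣ, α (vm (iu F a)) = β (vm (iu F a))) →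
  ∃ (E : Type) (_ : Field E) (_ : Algebra F E) (f : E →ₐ[F] A) (g : E →ₐ[F] B),
    (∀ v, α (vmap (f : E →+* A) v) = β (vmap (g : E →+* B) v)) ∧
    ∀ v, vmap (f : E →+* A) v = 0 → vmap (g : E →+* B) v = 0 → v = 0

end Pool.Agent.EVZ
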