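import Pool.Agent.EVZ.ZRN
import Pool.Agent.EVZ.QMP

/-!
Injectivity on square classes for `E(i) → A(i), B(i)`, `E` the common field of two orderings.
-/

set_option autoImplicit false

namespace Pool.Agent.EVZ

open Pool.Agent.EWG (VV vm iu QD vm_surj vm_mul vm_eq_zero vm_eq_iff vm_add_self)
open Pool.Agent.ETG (vmap Zh)
open Pool.Agent.EWH (Two pf br pf1 W IsMap wmap)

theorem q_nse : Stmt_NSE := nse_proof EWH.q_rel EWH.q_pfz

/-- `-1` is a square over `K`, the kernel of `V_F → V_K` -/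
theorem iu_sq {F K : Type} [Field F] [Field K] [Algebra F K] (h2 : Two F) (E : QD F K)
    (hE : E.x = -1) (f : Fˣ) : IsSquare (iu F f : Kˣ) ↔ vm f = 0 ∨ vm f = vm (-1) := by
  rw [(EWH.q_vkr F K h2 E).2.1 f, hE, vm_eq_zero, vm_eq_iff]

theorem ordf_sq {A : Type} [Field A] {α : VV A →ₗ[ZMod 2] ZMod 2} (hα : Ordf A α) (v : VV A)
    (h : v = 0 ∨ v = vm (-1)) (h0 : α v = 0) : v = 0 := by
  rcases h with h | h
  · exact h
  · rw [h, hα.neg] at h0
    exact absurd h0 (by decide)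

/-- the data of a common field -/
structure CF {E A B : Type} [Field E] [Field A] [Field B] (f : E →+* A) (g : E →+* B)
    (α : VV A →ₗ[ZMod 2] ZMod 2) (β : VV B →ₗ[ZMod 2] ZMod 2) : Prop where
  two : Two E
  hα : Ordf A α
  hβ : Ordf B β
  eq : ∀ v, α (vmap f v) = β (vmap g v)
  inj : ∀ v, vmap f v = 0 → vmap g v = 0 → v = 0

theorem CF.symm {E A B : Type} [Field E] [Field A] [Field B] {f : E →+* A} {g : E →+* B}
    {α : VV A →ₗ[ZMod 2] ZMod 2} {β : VV B →ₗ[ZMod 2] ZMod 2} (h : CF f g α β) :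
    CF g f β α where
  two := h.two
  hα := h.hβ
  hβ := h.hα
  eq v := (h.eq v).symm
  inj v h1 h3 := h.inj v h3 h1

section
variable {E A B KE KA KB : Type} [Field E] [Field A] [Field B] [Field KE] [Field KA] [Field KB]
  [Algebra E KE] [Algebra A KA] [Algebra B KB] {f : E →+* A} {g : E →+* B}
  {α : VV A →ₗ[ZMod 2] ZMod 2} {β : VV B →ₗ[ZMod 2] ZMod 2}

/-- INJ: an element of `E(i)` which is a square in `A(i)` and in `B(i)` is a square -/
theorem inj_i (h : CF f g α β) (EE : QD E KE) (EA : QD A KA) (EB : QD B KB) (hE : EE.x = -1)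
    (hA : EA.x = -1) (hB : EB.x = -1) (k : KE →+* KA) (l : KE →+* KB)
    (hk : ∀ a, k (algebraMap E KE a) = algebraMap A KA (f a)) (hkθ : k (EE.θ : KE) = EA.θ)
    (hl : ∀ a, l (algebraMap E KE a) = algebraMap B KB (g a)) (hlθ : l (EE.θ : KE) = EB.θ)
    (w : VV KE) (h1 : vmap k w = 0) (h3 : vmap l w = 0) : w = 0 := by
  have h2 := h.two
  obtain ⟨a, rfl⟩ := vm_surj w
  rw [vmap_vm', vm_eq_zero] at h1 h3
  -- the norm
  have n1 : vmap f (vm (EE.nm a)) = 0 := by
    rw [vmap_vm', qmap_nm EE EA f k hk hkθ, vm_eq_zero]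
    obtain ⟨c, hc⟩ := h1
    exact ⟨EA.nm c, by rw [hc, map_mul]⟩
  have n2 : vmap g (vm (EE.nm a)) = 0 := by
    rw [vmap_vm', qmap_nm EE EB g l hl hlθ, vm_eq_zero]
    obtain ⟨c, hc⟩ := h3
    exact ⟨EB.nm c, by rw [hc, map_mul]⟩
  have n3 := h.inj _ n1 n2
  rw [vm_eq_zero, (EWH.q_vkr E KE h2 EE).1] at n3
  obtain ⟨c, hc⟩ := n3
  have hac : (vm a : VV KE) = vm (iu E c) := (vm_eq_iff _ _).2 hc
  have m1 : IsSquare (iu A (Units.map f.toMonoidHom c) : KAˣ) := by
    rw [← qmap_iu f k hk, ← vm_eq_zero, ← vmap_vm', ← hac, vmap_vm', vm_eq_zero]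
    exact h1
  have m2 : IsSquare (iu B (Units.map g.toMonoidHom c) : KBˣ) := by
    rw [← qmap_iu g l hl, ← vm_eq_zero, ← vmap_vm', ← hac, vmap_vm', vm_eq_zero]
    exact h3
  rw [iu_sq (h2.map f) EA hA, ← vmap_vm'] at m1
  rw [iu_sq (h2.map g) EB hB, ← vmap_vm'] at m2
  rw [hac, vm_eq_zero, iu_sq h2 EE hE]
  have heq := h.eq (vm c)
  have hz : ∀ x : ZMod 2, x = 0 ∨ x = 1 := by decide
  have hm1 : ∀ {X : Type} [Field X] (φ : E →+* X), vmap φ (vm (-1)) = vm (-1) := by
    intro X _ φ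
    rw [vmap_vm']
    congr 1
    ext
    simp
  rcases hz (α (vmap f (vm c))) with h5 | h5
  · left
    exact h.inj _ (ordf_sq h.hα _ m1 h5) (ordf_sq h.hβ _ m2 (by rw [← heq, h5]))
  · right
    have k1 : vmap f (vm c) = vm (-1) := by
      rcases m1 with m | m
      · rw [m, map_zero] at h5
        exact absurd h5 (by decide)
      · exact m
    have k2 : vmap g (vm c) = vm (-1) := by
      rw [heq] at h5
      rcases m2 with m | m
      · rw [m, map_zero] at h5
        exact absurd h5 (by decide)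
      · exact m
    have k3 : vm c + vm (-1) = 0 := by
      apply h.inj
      · rw [map_add, k1, hm1, vm_add_self]
      · rw [map_add, k2, hm1, vm_add_self]
    calc vm c = vm c + (vm (-1) + vm (-1)) := by rw [vm_add_self, add_zero]
      _ = vm (-1) := by rw [← add_assoc, k3, zero_add]

end

end Pool.Agent.EVZ
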