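import Pool.Agent.EVZ.INJ

/-!
THE MAIN THEOREM OF THE DIRECTORY: the localisations of a field at two different components do not
carry orderings with the same restriction to `F` (if both have tight pairs).
-/

set_option autoImplicit false

namespace Pool.Agent.EVZ

open Pool.Agent.EWG (VV vm iu QD vm_surj vm_mul vm_eq_zero vm_eq_iff vm_add_self)
open Pool.Agent.ETG (vmap Zh)
open Pool.Agent.EWH (Two pf br pf1 W IsMap wmap)

/-- a tight pair: `y, z` positive and `q(y, s) = 0 = q(z, s)` only for `s = 0` -/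
def TPair (A : Type) [Field A] (α : VV A →ₗ[ZMod 2] ZMod 2) : Prop :=
  ∃ y z : VV A, α y = 0 ∧ α z = 0 ∧ ∀ s, Zh A y s → Zh A z s → s = 0

/-- NO SHARED ORDERINGS -/
def Stmt_NSO : Prop := ∀ (F K A KA B KB : Type) [Field F] [Field K] [Field A] [Field KA]
  [Field B] [Field KB] [Algebra F K] [Algebra A KA] [Algebra B KB], Two F →
  ∀ (EF : QD F K) (EA : QD A KA) (EB : QD B KB), EF.x = -1 → EA.x = -1 → EB.x = -1 →
  ∀ (f : F →+* A) (g : K →+* KA) (f' : F →+* B) (g' : K →+* KB),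
  (∀ a, g (algebraMap F K a) = algebraMap A KA (f a)) → g (EF.θ : K) = EA.θ →
  (∀ a, g' (algebraMap F K a) = algebraMap B KB (f' a)) → g' (EF.θ : K) = EB.θ →
  (∀ (x : VV KA) (y : VV KB), ∃ u v : VV K, vmap g u = x ∧ vmap g' u = 0 ∧ vmap g v = 0 ∧
    vmap g' v = y ∧ Zh K u v) →
  ∀ (α : VV A →ₗ[ZMod 2] ZMod 2) (β : VV B →ₗ[ZMod 2] ZMod 2), Ordf A α → Ordf B β →
  (∀ v : VV F, α (vmap f v) = β (vmap f' v)) → TPair A α → TPair B β → False

theorem vmap_vmap {K L M : Type} [Field K] [Field L] [Field M] (f : K →+* L) (g : L →+* M)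
    (h : K →+* M) (hh : g.comp f = h) (v : VV K) : vmap g (vmap f v) = vmap h v := by
  obtain ⟨a, rfl⟩ := vm_surj v
  subst hh
  rfl

theorem nm_iu' {F K : Type} [Field F] [Field K] [Algebra F K] (E : QD F K) (c : Fˣ) :
    E.nm (iu F c : Kˣ) = c ^ 2 := by
  ext
  rw [E.nmt]
  show E.t (algebraMap F K c) ^ 2 - E.x * E.s (algebraMap F K c) ^ 2 = ((c ^ 2 : Fˣ) : F)
  rw [E.t1, E.s1]
  push_cast
  ring

theorem vmap_neg {K L : Type} [Field K] [Field L] (f : K →+* L) :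
    vmap f (vm (-1)) = vm (-1) := by
  rw [vmap_vm']
  congr 1
  ext
  simp

section
variable {E A B KE KA KB K : Type} [Field E] [Field A] [Field B] [Field KE] [Field KA] [Field KB]
  [Field K] [Algebra E KE] [Algebra A KA] [Algebra B KB] {f : E →+* A} {g : E →+* B}
  {α : VV A →ₗ[ZMod 2] ZMod 2} {β : VV B →ₗ[ZMod 2] ZMod 2}

/-- `(a, 0) ∈ V_E` for `a` positive -/
theorem lift_a (h : CF f g α β) (EE : QD E KE) (EA : QD A KA) (EB : QD B KB) (hE : EE.x = -1)
    (hA : EA.x = -1) (hB : EB.x = -1) (k : KE →+* KA) (l : KE →+* KB)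
    (hk : ∀ a, k (algebraMap E KE a) = algebraMap A KA (f a)) (hkθ : k (EE.θ : KE) = EA.θ)
    (hl : ∀ a, l (algebraMap E KE a) = algebraMap B KB (g a)) (hlθ : l (EE.θ : KE) = EB.θ)
    (hs : ∀ x : VV KA, ∃ w : VV KE, vmap k w = x ∧ vmap l w = 0)
    (a : VV A) (ha : α a = 0) : ∃ v : VV E, vmap f v = a ∧ vmap g v = 0 := by
  have h2 := h.two
  obtain ⟨c, rfl⟩ := vm_surj a
  obtain ⟨w, hw1, hw2⟩ := hs (vm (iu A c))
  obtain ⟨d, rfl⟩ := vm_surj w
  rw [vmap_vm', vm_eq_iff] at hw1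
  rw [vmap_vm', vm_eq_zero] at hw2
  -- the norm is trivial
  have n1 : vmap f (vm (EE.nm d)) = 0 := by
    rw [vmap_vm', qmap_nm EE EA f k hk hkθ, vm_eq_zero]
    obtain ⟨r, hr⟩ := hw1
    have h5 : EA.nm (Units.map k.toMonoidHom d) * c ^ 2 = EA.nm r * EA.nm r := by
      rw [← nm_iu' EA c, ← map_mul, hr, map_mul]
    refine ⟨EA.nm r * c⁻¹, ?_⟩
    calc EA.nm (Units.map k.toMonoidHom d) = EA.nm (Units.map k.toMonoidHom d) * c ^ 2 * (c⁻¹) ^ 2 := by
          rw [mul_assoc, ← mul_pow, mul_inv_cancel, one_pow, mul_one]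
      _ = EA.nm r * c⁻¹ * (EA.nm r * c⁻¹) := by rw [h5, pow_two, mul_mul_mul_comm]
  have n2 : vmap g (vm (EE.nm d)) = 0 := by
    rw [vmap_vm', qmap_nm EE EB g l hl hlθ, vm_eq_zero]
    obtain ⟨r, hr⟩ := hw2
    exact ⟨EB.nm r, by rw [hr, map_mul]⟩
  have n3 := h.inj _ n1 n2
  rw [vm_eq_zero, (EWH.q_vkr E KE h2 EE).1] at n3
  obtain ⟨e, he⟩ := n3
  have hde : (vm d : VV KE) = vm (iu E e) := (vm_eq_iff _ _).2 he
  have m1 : IsSquare (iu A (Units.map f.toMonoidHom e * c) : KAˣ) := by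
    have h5 : vmap k (vm d) = vm (iu A c) := by
      rw [vmap_vm', vm_eq_iff]; exact hw1
    rw [hde, vmap_vm', qmap_iu f k hk, vm_eq_iff] at h5
    have : (iu A (Units.map f.toMonoidHom e * c) : KAˣ) = iu A (Units.map f.toMonoidHom e) * iu A c := by
      ext; simp
    rw [this]
    exact h5
  have m2 : IsSquare (iu B (Units.map g.toMonoidHom e) : KBˣ) := by
    rw [← qmap_iu g l hl, ← vm_eq_zero, ← vmap_vm', ← hde, vmap_vm', vm_eq_zero]
    exact hw2
  rw [iu_sq (h2.map f) EA hA, vm_mul, ← vmap_vm'] at m1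
  rw [iu_sq (h2.map g) EB hB, ← vmap_vm'] at m2
  have heq := h.eq (vm e)
  have hadd : ∀ {X : Type} [Field X] (x y z : VV X), x + y = z → x = y + z := by
    intro X _ x y z hxyz
    rw [← hxyz, add_comm x y, ← add_assoc, vm_add_self, zero_add]
  rcases m1 with m1 | m1
  · have k1 : vmap f (vm e) = vm c := by
      rw [hadd _ _ _ m1, add_zero]
    refine ⟨vm e, k1, ordf_sq h.hβ _ m2 ?_⟩
    rw [← heq, k1, ha]
  · have k1 : vmap f (vm e) = vm c + vm (-1) := hadd _ _ _ m1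
    have k2 : vmap g (vm e) = vm (-1) := by
      rcases m2 with m | m
      · rw [m, k1, map_zero, map_add, ha, h.hα.neg] at heq
        exact absurd heq (by decide)
      · exact m
    refine ⟨vm e + vm (-1), ?_, ?_⟩
    · rw [map_add, k1, vmap_neg, add_assoc, vm_add_self, add_zero]
    · rw [map_add, k2, vmap_neg, vm_add_self]

theorem nm_vm {F K : Type} [Field F] [Field K] [Algebra F K] (E : QD F K) (a b : Kˣ)
    (h : vm a = vm b) : vm (E.nm a) = vm (E.nm b) := by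
  rw [vm_eq_iff] at h ⊢
  obtain ⟨r, hr⟩ := h
  exact ⟨E.nm r, by rw [← map_mul, hr, map_mul]⟩

theorem pf_map {K L : Type} [Field K] [Field L] (f : K →+* L) (a b c d : Kˣ)
    (h : pf a b = pf c d) : pf (Units.map f.toMonoidHom a) (Units.map f.toMonoidHom b) =
      pf (Units.map f.toMonoidHom c) (Units.map f.toMonoidHom d) := by
  obtain ⟨g, hg, -⟩ := EWH.q_map K L f
  have h3 : ∀ a b : Kˣ, g (pf a b) =
      pf (Units.map f.toMonoidHom a) (Units.map f.toMonoidHom b) := by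
    intro a b
    unfold pf pf1
    rw [map_mul, map_sub, map_sub, map_one, hg, hg]
  rw [← h3, ← h3, h]

theorem add_eq_zero_iff' {X : Type} [Field X] (x y : VV X) : x + y = 0 ↔ x = y := by
  constructor
  · intro h
    calc x = x + (y + y) := by rw [vm_add_self, add_zero]
      _ = y := by rw [← add_assoc, h, zero_add]
  · rintro rfl
    exact vm_add_self _

/-- elements of `V_E` concentrated at different fields are orthogonal -/
theorem orth (h : CF f g α β) (EE : QD E KE) (EA : QD A KA) (EB : QD B KB) (hE : EE.x = -1)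
    (hA : EA.x = -1) (hB : EB.x = -1) (k : KE →+* KA) (l : KE →+* KB)
    (hk : ∀ a, k (algebraMap E KE a) = algebraMap A KA (f a)) (hkθ : k (EE.θ : KE) = EA.θ)
    (hl : ∀ a, l (algebraMap E KE a) = algebraMap B KB (g a)) (hlθ : l (EE.θ : KE) = EB.θ)
    (hs : ∀ (x : VV KA) (y : VV KB), ∃ u v : VV KE, vmap k u = x ∧ vmap l u = 0 ∧
      vmap k v = 0 ∧ vmap l v = y ∧ Zh KE u v)
    (v w : VV E) (hv : vmap g v = 0) (hw : vmap f w = 0) : Zh E v w := by
  have h2 := h.two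
  obtain ⟨c, rfl⟩ := vm_surj v
  obtain ⟨d, rfl⟩ := vm_surj w
  have inj := inj_i h EE EA EB hE hA hB k l hk hkθ hl hlθ
  -- the restrictions to `E(i)` are orthogonal
  have hkd : vmap k (vm (iu E d)) = 0 := by
    rw [vmap_vm', qmap_iu f k hk, vm_eq_zero, iu_sq (h2.map f) EA hA, ← vmap_vm']
    exact Or.inl hw
  have hlc : vmap l (vm (iu E c)) = 0 := by
    rw [vmap_vm', qmap_iu g l hl, vm_eq_zero, iu_sq (h2.map g) EB hB, ← vmap_vm']
    exact Or.inl hv
  obtain ⟨u, u', hu1, hu2, hu3, hu4, hu5⟩ := hs (vmap k (vm (iu E c))) (vmap l (vm (iu E d)))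
  have e1 : u = vm (iu E c) := by
    rw [← add_eq_zero_iff']
    apply inj
    · rw [map_add, hu1, vm_add_self]
    · rw [map_add, hu2, hlc, vm_add_self]
  have e2 : u' = vm (iu E d) := by
    rw [← add_eq_zero_iff']
    apply inj
    · rw [map_add, hu3, hkd, vm_add_self]
    · rw [map_add, hu4, vm_add_self]
  rw [e1, e2, zh_iff (h2.map (algebraMap E KE)), EWH.q_krs E KE h2 EE] at hu5
  obtain ⟨s, hs5⟩ := hu5
  rw [hE] at hs5
  -- `s` is a norm over `A` and over `B`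
  have hpz : ∀ {X : Type} [Field X] (hX : Two X) (a b : Xˣ), (vm a : VV X) = 0 ∨ vm b = 0 →
      pf a b = 0 := by
    intro X _ hX a b hab
    unfold pf
    rcases hab with hab | hab
    · rw [((EWH.q_rel X hX).2.2.2 a).2 ((vm_eq_zero _).1 hab), zero_mul]
    · rw [((EWH.q_rel X hX).2.2.2 b).2 ((vm_eq_zero _).1 hab), mul_zero]
  have m1 : pf EA.x (Units.map f.toMonoidHom s) = 0 := by
    have := pf_map f _ _ _ _ hs5
    rw [hpz (h2.map f) _ _ (Or.inr (by rw [← vmap_vm']; exact hw))] at this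
    have h9 : Units.map f.toMonoidHom (-1) = -1 := by ext; simp
    rw [h9, ← hA] at this
    exact this.symm
  have m2 : pf EB.x (Units.map g.toMonoidHom s) = 0 := by
    have := pf_map g _ _ _ _ hs5
    rw [hpz (h2.map g) _ _ (Or.inl (by rw [← vmap_vm']; exact hv))] at this
    have h9 : Units.map g.toMonoidHom (-1) = -1 := by ext; simp
    rw [h9, ← hB] at this
    exact this.symm
  rw [(EWH.q_vkr A KA (h2.map f) EA).2.2] at m1
  rw [(EWH.q_vkr B KB (h2.map g) EB).2.2] at m2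
  obtain ⟨w1, hw1⟩ := m1
  obtain ⟨w2, hw2⟩ := m2
  obtain ⟨p, p', hp1, hp2, hp3, hp4, -⟩ := hs (vm w1) (vm w2)
  obtain ⟨ω, hω⟩ := vm_surj (p + p')
  have k1 : vm (Units.map k.toMonoidHom ω) = vm w1 := by
    rw [← vmap_vm', hω, map_add, hp1, hp3, add_zero]
  have k2 : vm (Units.map l.toMonoidHom ω) = vm w2 := by
    rw [← vmap_vm', hω, map_add, hp2, hp4, zero_add]
  have k3 : vm (EE.nm ω) = vm s := by
    rw [← add_eq_zero_iff']
    apply h.inj
    · rw [map_add, vmap_vm', vmap_vm', qmap_nm EE EA f k hk hkθ, nm_vm EA _ _ k1, hw1,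
        vm_add_self]
    · rw [map_add, vmap_vm', vmap_vm', qmap_nm EE EB g l hl hlθ, nm_vm EB _ _ k2, hw2,
        vm_add_self]
  have k4 : pf EE.x (EE.nm ω) = 0 := by
    rw [(EWH.q_vkr E KE h2 EE).2.2]
    exact ⟨ω, rfl⟩
  rw [← zh_iff h2, k3, zh_iff h2, hE] at k4
  rw [zh_iff h2, hs5, k4]

end

theorem nso_proof : Stmt_NSO := by
  intro F K A KA B KB _ _ _ _ _ _ _ _ _ h2F EF EA EB hF hA hB f g f' g' hg hgθ hg' hgθ' hs α β
    hα hβ hαβ htA htB
  letI : Algebra F A := f.toAlgebra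
  letI : Algebra F B := f'.toAlgebra
  obtain ⟨E, iE, iFE, φ, ψ, hord, hinj⟩ := q_nse F A B h2F α β hα hβ (by
    intro a
    exact hαβ (vm a))
  have hφ : (φ : E →+* A).comp (algebraMap F E) = f := φ.comp_algebraMap
  have hψ : (ψ : E →+* B).comp (algebraMap F E) = f' := ψ.comp_algebraMap
  have h2E : Two E := h2F.map (algebraMap F E)
  have h : CF (φ : E →+* A) (ψ : E →+* B) α β := ⟨h2E, hα, hβ, hord, hinj⟩
  -- `-1` is not a square in `E`
  have hns : ¬ IsSquare (-1 : Eˣ) := by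
    intro hsq
    have h3 : vmap (φ : E →+* A) (vm (-1)) = 0 := by
      rw [(vm_eq_zero _).2 hsq, map_zero]
    rw [vmap_neg] at h3
    have h4 := hα.neg
    rw [h3, map_zero] at h4
    exact absurd h4 (by decide)
  obtain ⟨KE, iKE, iEKE, EE, hE⟩ := EWH.q_qxe E h2E (-1) hns
  have hx : ∀ {X : Type} [Field X] (θ : E →+* X), θ ((EE.x : E)) = ((-1 : Xˣ) : X) := by
    intro X _ θ
    rw [hE]
    simp
  obtain ⟨k, hk, hkθ⟩ := qmap EE EA (φ : E →+* A) (by rw [hx, hA])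
  obtain ⟨l, hl, hlθ⟩ := qmap EE EB (ψ : E →+* B) (by rw [hx, hB])
  obtain ⟨m, hm, hmθ⟩ := qmap EF EE (algebraMap F E) (by rw [hF, hE]; simp)
  have hkm : k.comp m = g := by
    apply qmap_ext EF
    · intro a
      rw [RingHom.comp_apply, hm, hk, hg, ← hφ]
      rfl
    · rw [RingHom.comp_apply, hmθ, hkθ, hgθ]
  have hlm : l.comp m = g' := by
    apply qmap_ext EF
    · intro a
      rw [RingHom.comp_apply, hm, hl, hg', ← hψ]
      rfl
    · rw [RingHom.comp_apply, hmθ, hlθ, hgθ']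
  have h2K : Two K := h2F.map (algebraMap F K)
  have hs' : ∀ (x : VV KA) (y : VV KB), ∃ u v : VV KE, vmap k u = x ∧ vmap l u = 0 ∧
      vmap k v = 0 ∧ vmap l v = y ∧ Zh KE u v := by
    intro x y
    obtain ⟨u, v, h1, h3, h4, h5, h6⟩ := hs x y
    exact ⟨vmap m u, vmap m v, by rw [vmap_vmap m k g hkm, h1], by rw [vmap_vmap m l g' hlm, h3],
      by rw [vmap_vmap m k g hkm, h4], by rw [vmap_vmap m l g' hlm, h5], zh_map h2K m _ _ h6⟩
  obtain ⟨y, z, hy, hz, hyz⟩ := htA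
  obtain ⟨y', z', hy', hz', hyz'⟩ := htB
  have liftA := lift_a h EE EA EB hE hA hB k l hk hkθ hl hlθ (by
    intro x
    obtain ⟨u, v, h1, h3, -⟩ := hs' x 0
    exact ⟨u, h1, h3⟩)
  have liftB := lift_a h.symm EE EB EA hE hB hA l k hl hlθ hk hkθ (by
    intro x
    obtain ⟨u, v, -, -, h4, h5, -⟩ := hs' 0 x
    exact ⟨v, h5, h4⟩)
  have hO := orth h EE EA EB hE hA hB k l hk hkθ hl hlθ hs'
  obtain ⟨Y1, hY1, hY1'⟩ := liftA y hy
  obtain ⟨Z1, hZ1, hZ1'⟩ := liftA z hz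
  obtain ⟨Y2, hY2', hY2⟩ := liftB y' hy'
  obtain ⟨Z2, hZ2', hZ2⟩ := liftB z' hz'
  -- linkage
  obtain ⟨q, hq, hqs, -, -, hq0, hql, -⟩ := EWH.q_qbl E h2E
  have hqz : ∀ v w : VV E, q v w = 0 ↔ Zh E v w := by
    intro v w
    obtain ⟨a, rfl⟩ := vm_surj v
    obtain ⟨b, rfl⟩ := vm_surj w
    rw [hq0, zh_iff h2E]
  have e1 : q (Y1 + Y2) Z1 = q Y1 Z1 := by
    rw [map_add, LinearMap.add_apply, hqs Y2 Z1, (hqz Z1 Y2).2 (hO Z1 Y2 hZ1' hY2), add_zero]
  have e2 : q (Z1 + Z2) Y1 = q Y1 Z1 := by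
    rw [map_add, LinearMap.add_apply, hqs Z2 Y1, (hqz Y1 Z2).2 (hO Y1 Z2 hY1' hZ2), add_zero,
      hqs]
  obtain ⟨s, hs1, hs2⟩ := hql _ _ _ _ (e1.trans e2.symm)
  have hmm : ∀ x : EWH.BQ E, x + x = 0 := EWH.bq_add_self
  have f1 : Zh E (Y1 + Y2) (s + Z1) := by
    rw [← hqz, map_add, hs1, hmm]
  have f2 : Zh E (Z1 + Z2) (s + Y1) := by
    rw [← hqz, map_add, hs2, e2, e1, hmm]
  -- the component at `B`
  have b1 := zh_map h2E (ψ : E →+* B) _ _ f1
  have b2 := zh_map h2E (ψ : E →+* B) _ _ f2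
  rw [map_add, map_add, hY1', hY2', hZ1', zero_add, add_zero] at b1
  rw [map_add, map_add, hZ1', hZ2', hY1', zero_add, add_zero] at b2
  have b3 := hyz' _ b1 b2
  -- the component at `A`
  have a1 := zh_map h2E (φ : E →+* A) _ _ f1
  have a2 := zh_map h2E (φ : E →+* A) _ _ f2
  rw [map_add, map_add, hY1, hY2, hZ1, add_zero] at a1
  rw [map_add, map_add, hZ1, hZ2, hY1, add_zero] at a2
  have h2A : Two A := h2F.map f
  have a3 := zh_add h2A _ _ _ a1 (zh_alt h2A y)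
  have a4 := zh_add h2A _ _ _ a2 (zh_alt h2A z)
  have a5 : vmap (φ : E →+* A) s + y + (z + vm (-1)) = 0 := by
    apply hyz
    · have : vmap (φ : E →+* A) s + y + (z + vm (-1)) =
          vmap (φ : E →+* A) s + z + (y + vm (-1)) := by abel
      rw [this]; exact a3
    · exact a4
  have a6 := congrArg α a5
  rw [map_add, map_add, map_add, map_zero, hy, hz, hα.neg, hord s, b3, map_zero] at a6
  exact absurd a6 (by decide)

end Pool.Agent.EVZ
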