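import Pool.Agent.EVZ.Defs

/-!
Orderings as functionals: sums of positive elements are positive; comparison of two orderings on a
quadratic extension.
-/

set_option autoImplicit false

namespace Pool.Agent.EVZ

open Pool.Agent.EWG (VV vm iu QD vm_surj vm_mul vm_eq_zero vm_eq_iff)
open Pool.Agent.ETG (vmap Zh)
open Pool.Agent.EWH (Two pf br pf1)

section
variable {K : Type} [Field K] {α : VV K →ₗ[ZMod 2] ZMod 2}

theorem zh_of_pf (hREL : EWH.Stmt_REL) (h2 : Two K) (a b : Kˣ) (h : pf a b = 0) :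
    Zh K (vm a) (vm b) := by
  intro a' b' ha hb
  rw [vm_eq_iff] at ha hb
  have h1 : br a' = br a := ((hREL K h2).1 a' a).2 ha
  have h3 : br b' = br b := ((hREL K h2).1 b' b).2 hb
  have : pf a' b' = pf a b := by
    unfold pf pf1
    rw [h1, h3]
  rw [this, h]

/-- sums of positive elements are positive -/
theorem ord_add (hREL : EWH.Stmt_REL) (hPFZ : EWH.Stmt_PFZ) (h2 : Two K) (hα : Ordf K α)
    (a b c : Kˣ) (hc : (c : K) = a + b) (ha : α (vm a) = 0) (hb : α (vm b) = 0) :
    α (vm c) = 0 := by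
  have h : pf (a * c) (b * c) = 0 := by
    rw [hPFZ K h2]
    refine ⟨c, 1, ?_⟩
    push_cast
    rw [hc]; ring
  have h3 := hα.zh _ _ (zh_of_pf hREL h2 _ _ h)
  rw [vm_mul, vm_mul, map_add, map_add, ha, hb, zero_add] at h3
  exact mul_self_eq_zero.1 h3

theorem ord_neg (hα : Ordf K α) (a : Kˣ) : α (vm (-a)) = α (vm a) + 1 := by
  have : -a = a * (-1) := by rw [mul_neg, mul_one]
  rw [this, vm_mul, map_add, hα.neg]

/-- a sum of two elements with the same sign has this sign -/
theorem ord_add' (hREL : EWH.Stmt_REL) (hPFZ : EWH.Stmt_PFZ) (h2 : Two K) (hα : Ordf K α)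
    (a b c : Kˣ) (hc : (c : K) = a + b) (hab : α (vm a) = α (vm b)) : α (vm c) = α (vm a) := by
  have hz : ∀ x : ZMod 2, x = 0 ∨ x = 1 := by decide
  rcases hz (α (vm a)) with h | h
  · rw [h]
    exact ord_add hREL hPFZ h2 hα a b c hc h (by rw [← hab, h])
  · have h1 : α (vm (-a)) = 0 := by rw [ord_neg hα, h]; decide
    have h3 : α (vm (-b)) = 0 := by rw [ord_neg hα, ← hab, h]; decide
    have h4 := ord_add hREL hPFZ h2 hα (-a) (-b) (-c) (by
      push_cast; rw [hc]; ring) h1 h3
    rw [ord_neg hα] at h4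
    rw [h]
    revert h4
    generalize α (vm c) = x
    revert x
    decide

end

end Pool.Agent.EVZ
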