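import Mathlib

/-!
Abstract form of: a pythagorean linked structure whose structure modulo `Q(-1)` is local and
nondegenerate has at most 8 elements (V3 step of the elementary type theorem, problem
MP_d26ff6_al).
-/

set_option autoImplicit false

namespace Pool.Agent.EVZ

open Module

section
variable {V B : Type} [AddCommGroup V] [Module (ZMod 2) V] [AddCommGroup B] [Module (ZMod 2) B]

theorem z2_add_self {X : Type} [AddCommGroup X] [Module (ZMod 2) X] (x : X) : x + x = 0 := by
  have h : (2 : ZMod 2) = 0 := rfl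
  calc x + x = (2 : ZMod 2) • x := by rw [two_smul]
    _ = 0 := by rw [h, zero_smul]

theorem z2_eq {X : Type} [AddCommGroup X] [Module (ZMod 2) X] {x y : X} (h : x + y = 0) :
    x = y := by
  calc x = x + (y + y) := by rw [z2_add_self, add_zero]
    _ = y := by rw [← add_assoc, h, zero_add]

/-- the data of PA4 -/
structure PD (q : V →ₗ[ZMod 2] V →ₗ[ZMod 2] B) (e : V) : Prop where
  symm : ∀ a b, q a b = q b a
  alt : ∀ a, q a a = q a e
  lnk : ∀ a b c d, q a b = q c d → ∃ x, q a x = q a b ∧ q c x = q a b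
  pyt : ∀ v, q e v = 0 → v = 0
  p2 : ∀ x u w, q x u = 0 → q (x + e) w = 0 → q u w = 0
  p3 : ∀ x z a b, q x z = 0 → q (x + e) a = q (z + e) b → ∃ t, q (x + e) a = q e t
  loc : ∀ x s s', (∃ t, q x s = q e t) ∨ (∃ t, q x s' = q e t) ∨ ∃ t, q x (s + s') = q e t
  nd : ∀ x, (∀ s, ∃ t, q x s = q e t) → x = 0 ∨ x = e

/-- orthogonal modulo `Q(e)` -/
def OR (q : V →ₗ[ZMod 2] V →ₗ[ZMod 2] B) (e x : V) : Submodule (ZMod 2) V :=
  (LinearMap.range (q e)).comap (q x)

theorem mem_OR (q : V →ₗ[ZMod 2] V →ₗ[ZMod 2] B) (e x s : V) :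
    s ∈ OR q e x ↔ ∃ t, q x s = q e t := by
  unfold OR
  rw [Submodule.mem_comap, LinearMap.mem_range]
  constructor
  · rintro ⟨t, ht⟩; exact ⟨t, ht.symm⟩
  · rintro ⟨t, ht⟩; exact ⟨t, ht.symm⟩

variable {q : V →ₗ[ZMod 2] V →ₗ[ZMod 2] B} {e : V}

theorem PD.sym (h : PD q e) (x s : V) (hx : s ∈ OR q e x) : x ∈ OR q e s := by
  rw [mem_OR] at hx ⊢
  obtain ⟨t, ht⟩ := hx
  exact ⟨t, by rw [h.symm, ht]⟩

/-- decomposition of `x^⊥` -/
theorem PD.sup (h : PD q e) (x : V) :
    LinearMap.ker (q x) ⊔ LinearMap.ker (q (x + e)) = OR q e x := by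
  apply le_antisymm
  · rw [sup_le_iff]
    constructor
    · intro s hs
      rw [LinearMap.mem_ker] at hs
      rw [mem_OR]
      exact ⟨0, by rw [hs, map_zero]⟩
    · intro s hs
      rw [LinearMap.mem_ker, map_add, LinearMap.add_apply] at hs
      rw [mem_OR]
      exact ⟨s, z2_eq hs⟩
  · intro s hs
    rw [mem_OR] at hs
    obtain ⟨t', ht'⟩ := hs
    obtain ⟨t, h1, h2⟩ := h.lnk _ _ _ _ ht'
    have e1 : s = (s + t) + t := by rw [add_assoc, z2_add_self, add_zero]
    rw [e1]
    refine Submodule.add_mem_sup ?_ ?_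
    · rw [LinearMap.mem_ker, map_add, h1, z2_add_self]
    · rw [LinearMap.mem_ker, map_add, LinearMap.add_apply, h1, h2, z2_add_self]

theorem PD.inf (h : PD q e) (x : V) :
    LinearMap.ker (q x) ⊓ LinearMap.ker (q (x + e)) = ⊥ := by
  rw [eq_bot_iff]
  rintro s ⟨h1, h2⟩
  rw [SetLike.mem_coe, LinearMap.mem_ker] at h1 h2
  rw [map_add, LinearMap.add_apply, h1, zero_add] at h2
  exact h.pyt s h2

/-- `x^⊥` is a hyperplane -/
theorem PD.hyp [FiniteDimensional (ZMod 2) V] (h : PD q e) (x : V) (h0 : x ≠ 0) (he : x ≠ e) :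
    finrank (ZMod 2) (OR q e x) + 1 = finrank (ZMod 2) V := by
  obtain ⟨g, hg⟩ : ∃ g, g ∉ OR q e x := by
    by_contra hcon
    push Not at hcon
    rcases h.nd x (fun s => (mem_OR q e x s).1 (hcon s)) with h1 | h1
    · exact h0 h1
    · exact he h1
  have hg0 : g ≠ 0 := by
    rintro rfl
    exact hg (OR q e x).zero_mem
  have hsup : OR q e x ⊔ Submodule.span (ZMod 2) {g} = ⊤ := by
    rw [eq_top_iff]
    intro s _
    rcases h.loc x s g with h1 | h1 | h1
    · exact Submodule.mem_sup_left ((mem_OR q e x s).2 h1)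
    · exact absurd ((mem_OR q e x g).2 h1) hg
    · have e1 : s = (s + g) + g := by rw [add_assoc, z2_add_self, add_zero]
      rw [e1]
      exact Submodule.add_mem_sup ((mem_OR q e x _).2 h1) (Submodule.mem_span_singleton_self g)
  have hinf : OR q e x ⊓ Submodule.span (ZMod 2) {g} = ⊥ := by
    rw [eq_bot_iff]
    rintro s ⟨h1, h2⟩
    rw [SetLike.mem_coe, Submodule.mem_span_singleton] at h2
    obtain ⟨c, rfl⟩ := h2
    have hc : ∀ c : ZMod 2, c = 0 ∨ c = 1 := by decide
    rcases hc c with rfl | rfl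
    · rw [zero_smul]; exact Submodule.zero_mem _
    · rw [one_smul] at h1
      exact absurd h1 hg
  have h3 := Submodule.finrank_sup_add_finrank_inf_eq (OR q e x) (Submodule.span (ZMod 2) {g})
  rw [hsup, hinf, finrank_top, finrank_bot, finrank_span_singleton hg0] at h3
  omega

theorem PD.rnk [FiniteDimensional (ZMod 2) V] (h : PD q e) (x : V) (h0 : x ≠ 0) (he : x ≠ e) :
    finrank (ZMod 2) (LinearMap.ker (q x)) + finrank (ZMod 2) (LinearMap.ker (q (x + e))) + 1 =
      finrank (ZMod 2) V := by
  have h3 := Submodule.finrank_sup_add_finrank_inf_eq (LinearMap.ker (q x))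
    (LinearMap.ker (q (x + e)))
  rw [h.sup, h.inf, finrank_bot, add_zero] at h3
  rw [← h.hyp x h0 he, h3]

theorem PD.main [FiniteDimensional (ZMod 2) V] (h : PD q e) : ∀ (n : ℕ) (x : V), x ≠ e →
    finrank (ZMod 2) (LinearMap.ker (q (x + e))) = n → ∀ y, q (x + e) y = 0 → y = 0 ∨ y = x := by
  intro n
  induction n using Nat.strong_induction_on with
  | _ n ih =>
  intro x hxe hn y hy
  by_contra hcon
  push Not at hcon
  obtain ⟨hy0, hyx⟩ := hcon
  have hx0 : x ≠ 0 := by
    rintro rfl
    rw [zero_add] at hy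
    exact hy0 (h.pyt y hy)
  have hxx : q (x + e) x = 0 := by
    rw [map_add, LinearMap.add_apply, h.alt, h.symm x e, z2_add_self]
  -- the induction hypothesis
  have key : ∀ y, q (x + e) y = 0 → y ≠ 0 → y ≠ x → y ≠ e ∧
      (∀ z, q (y + e) z = 0 → z = 0 ∨ z = y) ∧
      finrank (ZMod 2) (LinearMap.ker (q (y + e))) = 1 := by
    intro y hy hy0 hyx
    have hye : y ≠ e := by
      rintro rfl
      rw [h.symm] at hy
      exact hxe (z2_eq (h.pyt _ hy))
    have hle : LinearMap.ker (q (y + e)) < LinearMap.ker (q (x + e)) := by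
      rw [SetLike.lt_iff_le_and_exists]
      refine ⟨?_, x, hxx, ?_⟩
      · intro z hz
        rw [LinearMap.mem_ker] at hz ⊢
        exact h.p2 y (x + e) z (by rw [h.symm]; exact hy) hz
      · rw [LinearMap.mem_ker]
        intro hz
        have h1 : q x y = q e y := by
          rw [map_add, LinearMap.add_apply] at hy
          exact z2_eq hy
        rw [map_add, LinearMap.add_apply, h.symm y x, h1, ← map_add] at hz
        exact hyx (z2_eq (h.pyt _ hz))
    have hlt := Submodule.finrank_lt_finrank_of_lt hle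
    rw [hn] at hlt
    have h3 := ih _ hlt y hye rfl
    refine ⟨hye, h3, ?_⟩
    have h4 : LinearMap.ker (q (y + e)) = Submodule.span (ZMod 2) {y} := by
      apply le_antisymm
      · intro z hz
        rcases h3 z hz with rfl | rfl
        · exact Submodule.zero_mem _
        · exact Submodule.mem_span_singleton_self _
      · rw [Submodule.span_singleton_le_iff_mem, LinearMap.mem_ker, map_add, LinearMap.add_apply,
          h.alt, h.symm y e, z2_add_self]
    rw [h4, finrank_span_singleton hy0]
  -- an element `y'` not orthogonal to `y`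
  have hORx : ∀ s, q (x + e) s = 0 → s ∈ OR q e x := by
    intro s hs
    rw [← h.sup]
    exact Submodule.mem_sup_right hs
  have hyx' : y ∈ OR q e x := hORx y hy
  obtain ⟨y', hy', hyy'⟩ : ∃ y', q (x + e) y' = 0 ∧ y' ∉ OR q e y := by
    by_contra hcon
    push Not at hcon
    have h1 : ∀ s ∈ OR q e x, s ∈ OR q e y := by
      intro s hs
      rw [← h.sup, Submodule.mem_sup] at hs
      obtain ⟨u, hu, w, hw, rfl⟩ := hs
      refine Submodule.add_mem _ ?_ (hcon w hw)
      rw [mem_OR]
      exact ⟨0, by rw [h.symm, h.p2 x u y hu hy, map_zero]⟩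
    obtain ⟨g, hg⟩ : ∃ g, g ∉ OR q e x := by
      by_contra hcon2
      push Not at hcon2
      rcases h.nd x (fun s => (mem_OR q e x s).1 (hcon2 s)) with h1 | h1
      · exact hx0 h1
      · exact hxe h1
    have h2 : ∀ y'', (∀ s ∈ OR q e x, s ∈ OR q e y'') → g ∈ OR q e y'' → y'' = 0 ∨ y'' = e := by
      intro y'' h3 h4
      apply h.nd
      intro s
      rw [← mem_OR]
      by_cases hs : s ∈ OR q e x
      · exact h3 s hs
      · rcases h.loc x s g with h5 | h5 | h5
        · exact absurd ((mem_OR _ _ _ _).2 h5) hs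
        · exact absurd ((mem_OR _ _ _ _).2 h5) hg
        · have h6 := h3 _ ((mem_OR _ _ _ _).2 h5)
          have e1 : s = (s + g) + g := by rw [add_assoc, z2_add_self, add_zero]
          rw [e1]
          exact Submodule.add_mem _ h6 h4
    by_cases hgy : g ∈ OR q e y
    · rcases h2 y h1 hgy with h3 | h3
      · exact hy0 h3
      · exact (key y hy hy0 hyx).1 h3
    · have h3 : g ∈ OR q e (x + y) := by
        rcases h.loc g x y with h5 | h5 | h5
        · exact absurd (h.sym _ _ ((mem_OR _ _ _ _).2 h5)) hg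
        · exact absurd (h.sym _ _ ((mem_OR _ _ _ _).2 h5)) hgy
        · exact h.sym _ _ ((mem_OR _ _ _ _).2 h5)
      rcases h2 (x + y) (by
        intro s hs
        have h4 := h.sym _ _ hs
        have h5 := h.sym _ _ (h1 s hs)
        exact h.sym _ _ (Submodule.add_mem _ h4 h5)) h3 with h4 | h4
      · exact hyx (z2_eq h4).symm
      · have h5 : x + e = y := by
          rw [← h4, ← add_assoc, z2_add_self, zero_add]
        rw [h5, h.alt, h.symm] at hy
        exact hy0 (h.pyt y hy)
  -- the elements `y` and `x + y`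
  have hxy : q (x + e) (x + y) = 0 := by rw [map_add, hxx, hy, add_zero]
  have hxy0 : x + y ≠ 0 := fun h1 => hyx (z2_eq h1).symm
  have hxyx : x + y ≠ x := by
    intro h1
    exact hy0 (by simpa using h1)
  obtain ⟨hye, -, hr1⟩ := key y hy hy0 hyx
  obtain ⟨hxye, -, hr2⟩ := key (x + y) hxy hxy0 hxyx
  have r1 := h.rnk y hy0 hye
  have r2 := h.rnk (x + y) hxy0 hxye
  have r3 := h.rnk x hx0 hxe
  rw [hr1] at r1
  rw [hr2] at r2
  have hyyO : y ∈ OR q e y := by
    rw [mem_OR]; exact ⟨y, by rw [h.alt, h.symm]⟩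
  have hxyO : x ∈ OR q e y := h.sym _ _ hyx'
  -- three independent elements
  have r4 : 3 ≤ finrank (ZMod 2) (LinearMap.ker (q (x + e))) := by
    have i1 : Submodule.span (ZMod 2) {x, y} ≤ LinearMap.ker (q (x + e)) := by
      rw [Submodule.span_le]
      intro z hz
      rcases hz with rfl | hz
      · exact hxx
      · rw [Set.mem_singleton_iff] at hz
        rw [hz]; exact hy
    have i2 : Submodule.span (ZMod 2) {x, y} < LinearMap.ker (q (x + e)) := by
      rw [SetLike.lt_iff_le_and_exists]
      refine ⟨i1, y', hy', ?_⟩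
      intro h1
      apply hyy'
      have i3 : Submodule.span (ZMod 2) {x, y} ≤ OR q e y := by
        rw [Submodule.span_le]
        intro z hz
        rcases hz with rfl | hz
        · exact hxyO
        · rw [Set.mem_singleton_iff] at hz
          rw [hz]; exact hyyO
      exact i3 h1
    have i4 : Submodule.span (ZMod 2) {y} < Submodule.span (ZMod 2) {x, y} := by
      rw [SetLike.lt_iff_le_and_exists]
      refine ⟨Submodule.span_mono (by simp), x, Submodule.subset_span (by simp), ?_⟩
      rw [Submodule.mem_span_singleton]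
      rintro ⟨c, hc⟩
      have hc' : ∀ c : ZMod 2, c = 0 ∨ c = 1 := by decide
      rcases hc' c with rfl | rfl
      · rw [zero_smul] at hc
        exact hx0 hc.symm
      · rw [one_smul] at hc
        exact hyx hc
    have i5 := Submodule.finrank_lt_finrank_of_lt i2
    have i6 := Submodule.finrank_lt_finrank_of_lt i4
    rw [finrank_span_singleton hy0] at i6
    omega
  have hinf : LinearMap.ker (q y) ⊓ LinearMap.ker (q (x + y)) ≤ LinearMap.ker (q x) := by
    rintro z ⟨h1, h2⟩
    rw [SetLike.mem_coe, LinearMap.mem_ker] at h1 h2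
    rw [map_add, LinearMap.add_apply, h1, add_zero] at h2
    exact h2
  have r5 := Submodule.finrank_mono hinf
  have r6 := Submodule.finrank_sup_add_finrank_inf_eq (LinearMap.ker (q y))
    (LinearMap.ker (q (x + y)))
  have r7 : LinearMap.ker (q y) ⊔ LinearMap.ker (q (x + y)) = ⊤ := by
    apply Submodule.eq_top_of_finrank_eq
    apply le_antisymm (Submodule.finrank_le _)
    omega
  have hy'm : y' ∈ LinearMap.ker (q y) ⊔ LinearMap.ker (q (x + y)) := by
    rw [r7]; exact Submodule.mem_top
  rw [Submodule.mem_sup] at hy'm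
  obtain ⟨y1, hy1, w, hw, hsum⟩ := hy'm
  rw [LinearMap.mem_ker] at hy1 hw
  have b1 : q (x + y + e) y1 = q (x + e) y1 := by
    have : x + y + e = (x + e) + y := by abel
    rw [this, map_add, LinearMap.add_apply, hy1, add_zero]
  have b2 : q (y + e) w = q (x + e) w := by
    have h5 : (y + e) + (x + y) = (x + e) + (y + y) := by abel
    have h6 : x + e = (y + e) + (x + y) := by rw [h5, z2_add_self, add_zero]
    rw [h6, map_add q (y + e) (x + y), LinearMap.add_apply, hw, add_zero]
  have b3 : q (x + e) y1 = q (x + e) w := by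
    apply z2_eq
    rw [← map_add, hsum, hy']
  have b4 : q (x + y) y = 0 := by
    have h6 : q x y = q e y := by
      rw [map_add, LinearMap.add_apply] at hy
      exact z2_eq hy
    rw [map_add, LinearMap.add_apply, h6, h.alt, h.symm y e, z2_add_self]
  obtain ⟨t, ht⟩ := h.p3 (x + y) y y1 w b4 (by rw [b1, b2, b3])
  -- contradiction
  have o1 : y1 ∈ OR q e x := by
    rw [mem_OR]
    rw [b1, map_add, LinearMap.add_apply] at ht
    refine ⟨t + y1, ?_⟩
    rw [map_add, ← ht, add_assoc, z2_add_self, add_zero]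
  have o2 : w ∈ OR q e x := by
    have e1 : w = y' + y1 := by
      rw [← hsum]
      have : y1 + w + y1 = w + (y1 + y1) := by abel
      rw [this, z2_add_self, add_zero]
    rw [e1]
    exact Submodule.add_mem _ (hORx y' hy') o1
  have o3 : w ∈ OR q e y := by
    rw [mem_OR] at o2 ⊢
    obtain ⟨t', ht'⟩ := o2
    refine ⟨t', ?_⟩
    rw [← ht']
    apply z2_eq
    rw [add_comm, ← LinearMap.add_apply, ← map_add, hw]
  apply hyy'
  rw [← hsum]
  refine Submodule.add_mem _ ?_ o3
  rw [mem_OR]
  exact ⟨0, by rw [hy1, map_zero]⟩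

/-- PA4: every element of `V / {0, e}` is rigid -/
theorem PD.rig [FiniteDimensional (ZMod 2) V] (h : PD q e) (x y t : V) (h0 : x ≠ 0) (he : x ≠ e)
    (hxy : q x y = q e t) : y = 0 ∨ y = e ∨ y = x ∨ y = x + e := by
  have h1 : y ∈ OR q e x := (mem_OR _ _ _ _).2 ⟨t, hxy⟩
  rw [← h.sup, Submodule.mem_sup] at h1
  obtain ⟨u, hu, w, hw, rfl⟩ := h1
  rw [LinearMap.mem_ker] at hu hw
  have h2 := h.main _ x he rfl w hw
  have h3 := h.main _ (x + e) (by
    intro h3
    exact h0 (by simpa using h3)) rfl u (by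
      rw [add_assoc, z2_add_self, add_zero]; exact hu)
  rcases h2 with rfl | rfl <;> rcases h3 with rfl | rfl
  · left; simp
  · right; right; right; simp
  · right; right; left; simp
  · right; left
    have : w + e + w = e + (w + w) := by abel
    rw [this, z2_add_self, add_zero]

end

end Pool.Agent.EVZ
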