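import Pool.Agent.EVZ.PA4
import Pool.Agent.EWH.All

/-!
The data of PA4 for a pythagorean field; consequence: if `K = F(√-1)` is nondegenerate and local
and all corestrictions `cor Q(w, y)` are `0`, then `K` has a rigid element.
-/

set_option autoImplicit false

namespace Pool.Agent.EVZ

open Pool.Agent.EWG (VV vm iu QD vm_surj vm_mul vm_eq_zero vm_eq_iff)
open Pool.Agent.EWH (Two pf br pf1 pf3 W IsMap wmap FX)

section
variable {F : Type} [Field F]

theorem pf1_neg_add (x : Fˣ) : pf1 x + pf1 (-x) = pf1 (-1) := by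
  rw [← EWH.two_eq]
  unfold pf1
  rw [EWH.br_neg]
  ring

/-- no torsion in degree two -/
theorem tf (h2 : Two F) (hp : ∀ a : Fˣ, pf (-1) a = 0 → IsSquare a) (a b : Fˣ)
    (h : pf a b * pf1 (-1) = 0) : pf a b = 0 := by
  obtain ⟨a', b', h1, h3⟩ := EWH.q_slk F h2 a b (-1) h
  rw [h1]
  unfold pf
  rw [((EWH.q_rel F h2).2.2.2 a').2 (hp a' h3), zero_mul]

theorem tf2 (h2 : Two F) (hp : ∀ a : Fˣ, pf (-1) a = 0 → IsSquare a) (x u w : Fˣ)
    (h1 : pf x u = 0) (h3 : pf (-x) w = 0) : pf u w = 0 := by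
  apply tf h2 hp
  have h4 : pf1 x * pf1 u = 0 := h1
  have h5 : pf1 (-x) * pf1 w = 0 := h3
  rw [← pf1_neg_add x]
  unfold pf
  calc pf1 u * pf1 w * (pf1 x + pf1 (-x)) =
      (pf1 x * pf1 u) * pf1 w + (pf1 (-x) * pf1 w) * pf1 u := by ring
    _ = 0 := by rw [h4, h5]; ring

theorem tf3 (h2 : Two F) (hp : ∀ a : Fˣ, pf (-1) a = 0 → IsSquare a) (x z a b : Fˣ)
    (h1 : pf x z = 0) (h3 : pf (-x) a = pf (-z) b) : ∃ t : Fˣ, pf (-x) a = pf (-1) t := by
  obtain ⟨t, h4, h5⟩ := EWH.q_lnk F h2 _ _ _ _ h3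
  refine ⟨t, ?_⟩
  have h6 : pf x t = 0 := by
    apply tf h2 hp
    have h7 : pf1 x * pf1 z = 0 := h1
    have h8 : pf1 (-z) * pf1 t = pf1 (-x) * pf1 t := by
      have : pf (-z) t = pf (-x) t := by rw [h4, h5]
      exact this
    have h9 : pf1 x * pf1 (-x) = 0 := (EWH.q_bil F).2.2.2.1 x
    rw [← pf1_neg_add z]
    unfold pf
    calc pf1 x * pf1 t * (pf1 z + pf1 (-z)) =
        (pf1 x * pf1 z) * pf1 t + pf1 x * (pf1 (-z) * pf1 t) := by ring
      _ = (pf1 x * pf1 z) * pf1 t + (pf1 x * pf1 (-x)) * pf1 t := by rw [h8]; ring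
      _ = 0 := by rw [h7, h9]; ring
  rw [← h4]
  have h7 : pf1 x * pf1 t = 0 := h6
  show pf1 (-x) * pf1 t = pf1 (-1) * pf1 t
  rw [← pf1_neg_add x, add_mul, h7, zero_add]

theorem vm_neg' (a : Fˣ) : (vm (-a) : VV F) = vm a + vm (-1) := by
  have : -a = a * (-1) := by rw [mul_neg, mul_one]
  rw [this, vm_mul]

end

section
variable {F K : Type} [Field F] [Field K] [Algebra F K] {E : QD F K}

theorem pd_field (h2 : Two F) (hx : E.x = -1) (X : FX E)
    (hpyt : ∀ v, X.q (vm (-1)) v = 0 → v = 0)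
    (hloc : ∀ v w w' : VV K, X.Q v w = 0 ∨ X.Q v w' = 0 ∨ X.Q v (w + w') = 0)
    (hnd : ∀ x : VV F, (∀ s, X.Q (X.res x) (X.res s) = 0) → X.res x = 0) :
    PD X.q (vm (-1)) := by
  have hp : ∀ a : Fˣ, pf (-1) a = 0 → IsSquare a := by
    intro a ha
    rw [← vm_eq_zero]
    exact hpyt _ ((X.q_zero _ _).2 ha)
  have hF3 : ∀ x s, (∃ t, X.q x s = X.q (vm (-1)) t) ↔ X.Q (X.res x) (X.res s) = 0 := by
    intro x s
    rw [X.F3, hx]
  refine ⟨X.q_symm, X.q_self, X.q_link, hpyt, ?_, ?_, ?_, ?_⟩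
  · intro x u w h1 h3
    obtain ⟨a, rfl⟩ := vm_surj x
    obtain ⟨b, rfl⟩ := vm_surj u
    obtain ⟨c, rfl⟩ := vm_surj w
    rw [← vm_neg', X.q_zero] at h3
    rw [X.q_zero] at h1 ⊢
    exact tf2 h2 hp a b c h1 h3
  · intro x z a b h1 h3
    obtain ⟨x, rfl⟩ := vm_surj x
    obtain ⟨z, rfl⟩ := vm_surj z
    obtain ⟨a, rfl⟩ := vm_surj a
    obtain ⟨b, rfl⟩ := vm_surj b
    rw [X.q_zero] at h1
    have hq : ∀ a b c d : Fˣ, X.q (vm a) (vm b) = X.q (vm c) (vm d) ↔ pf a b = pf c d := by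
      intro a b c d
      obtain ⟨q', hq', -, -, hqq, -⟩ := EWH.q_qbl F h2
      rw [X.q_vm, X.q_vm, ← hq', ← hq', hqq]
    rw [← vm_neg', ← vm_neg', hq] at h3
    obtain ⟨t, ht⟩ := tf3 h2 hp x z a b h1 h3
    refine ⟨vm t, ?_⟩
    rw [← vm_neg', hq]
    exact ht
  · intro x s s'
    rw [hF3, hF3, hF3, map_add]
    exact hloc _ _ _
  · intro x h
    have h1 := hnd x (fun s => (hF3 x s).1 (h s))
    rw [X.ker_res, hx] at h1
    exact h1

/-- PY4: a field `F` with `V_e = 0` such that `K = F(√-1)` is local and nondegenerate: all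
elements of `K` are rigid -/
theorem py4 (h2 : Two F) (hx : E.x = -1) (hf : Finite (VV F)) (X : FX E)
    (hpyt : ∀ v, X.q (vm (-1)) v = 0 → v = 0)
    (hloc : ∀ v w w' : VV K, X.Q v w = 0 ∨ X.Q v w' = 0 ∨ X.Q v (w + w') = 0)
    (hnd : ∀ v : VV K, (∀ w, X.Q v w = 0) → v = 0) (t : VV K) (ht : t ≠ 0) (v : VV K)
    (hv : X.Q t v = 0) : v = 0 ∨ v = t := by
  have hfd : FiniteDimensional (ZMod 2) (VV F) := Module.Finite.of_finite
  -- `res` is onto
  have hN : ∀ w, X.N w = 0 := by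
    intro w
    apply hpyt
    rw [← hx, X.im_N]
    exact ⟨w, rfl⟩
  have hres : ∀ w : VV K, ∃ x, X.res x = w := fun w => (X.ker_N w).1 (hN w)
  have hPD : PD X.q (vm (-1)) := by
    refine pd_field h2 hx X hpyt hloc ?_
    intro x h
    apply hnd
    intro w
    obtain ⟨s, rfl⟩ := hres w
    exact h s
  obtain ⟨x, rfl⟩ := hres t
  obtain ⟨y, rfl⟩ := hres v
  have h0 : x ≠ 0 := by
    rintro rfl
    exact ht (map_zero _)
  have he : x ≠ vm (-1) := by
    rintro rfl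
    apply ht
    rw [X.ker_res, hx]
    exact Or.inr rfl
  rw [X.F3, hx] at hv
  obtain ⟨z, hz⟩ := hv
  have hee : X.res (vm (-1)) = 0 := by
    rw [X.ker_res, hx]
    exact Or.inr rfl
  rcases hPD.rig x y z h0 he hz with h | h | h | h
  · left; rw [h, map_zero]
  · left; rw [h, hee]
  · right; rw [h]
  · right; rw [h, map_add, hee, add_zero]

end

end Pool.Agent.EVZ
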