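import Pool.Agent.EVZ.LCR
import Pool.Agent.EVZ.NSO

/-!
Tight pairs in ordered fields `F` such that `F(√-1)` is nondegenerate and local or with a rigid
element.
-/

set_option autoImplicit false

namespace Pool.Agent.EVZ

open Module
open Pool.Agent.EWG (VV vm iu QD vm_surj vm_mul vm_eq_zero vm_eq_iff Good vm_add_self)
open Pool.Agent.EWH (Two pf br pf1 pf3 W IsMap wmap FX)
open Pool.Agent.ETG (Zf Zh ND ZLoc Rig ZDec)

/-! ### Abstract lemmas -/

section
variable {L B : Type} [AddCommGroup L] [Module (ZMod 2) L] [AddCommGroup B] [Module (ZMod 2) B]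
  {Q : L →ₗ[ZMod 2] L →ₗ[ZMod 2] B}

/-- rigid element -/
def Rg (Q : L →ₗ[ZMod 2] L →ₗ[ZMod 2] B) (t : L) : Prop := t ≠ 0 ∧ ∀ v, Q t v = 0 → v = 0 ∨ v = t

/-- rigid + not rigid = rigid -/
theorem rg_add (hs : ∀ v w, Q v w = Q w v) (ha : ∀ v, Q v v = 0)
    (hl : ∀ a b c d, Q a b = Q c d → ∃ y, Q a y = Q a b ∧ Q c y = Q a b) (t b : L)
    (ht : Rg Q t) (hb0 : b ≠ 0) (hb : ¬ Rg Q b) : Rg Q (t + b) := by
  have hbt : Q b t ≠ 0 := by
    intro h
    rw [hs] at h
    rcases ht.2 b h with h1 | h1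
    · exact hb0 h1
    · exact hb (by rw [h1]; exact ht)
  obtain ⟨u, hbu, hu0, hub⟩ : ∃ u, Q b u = 0 ∧ u ≠ 0 ∧ u ≠ b := by
    by_contra hcon
    push Not at hcon
    refine hb ⟨hb0, fun v hv => ?_⟩
    by_cases hv0 : v = 0
    · exact Or.inl hv0
    · exact Or.inr (hcon v hv hv0)
  refine ⟨?_, ?_⟩
  · intro h
    have : t = b := z2_eq h
    exact hb (by rw [← this]; exact ht)
  intro s hs0
  by_contra hcon
  push Not at hcon
  obtain ⟨hs1, hs2⟩ := hcon
  rw [map_add, LinearMap.add_apply] at hs0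
  have hc : Q t s = Q b s := z2_eq hs0
  -- the key alternative
  have key : ∀ u', Q b u' = 0 → Q u' s = Q t s ∨ Q u' (s + t) = 0 := by
    intro u' hu'
    have h1 : Q (s + u') b = Q t s := by
      rw [map_add, LinearMap.add_apply, hs s b, hs u' b, hu', add_zero, hc]
    obtain ⟨x, hx1, hx2⟩ := hl _ _ _ _ h1
    rw [h1] at hx1 hx2
    have h3 : Q t (x + s) = 0 := by rw [map_add, hx2, z2_add_self]
    rcases ht.2 _ h3 with h4 | h4
    · have h5 : x = s := z2_eq h4
      left
      rw [h5, map_add, LinearMap.add_apply, ha, zero_add] at hx1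
      exact hx1
    · have h5 : x = s + t := by
        rw [← h4]
        have : s + (x + s) = x + (s + s) := by abel
        rw [this, z2_add_self, add_zero]
      right
      rw [h5, map_add Q s u', LinearMap.add_apply, map_add (Q s), ha, zero_add, hs s t] at hx1
      have : Q t s + Q u' (s + t) + Q t s = Q u' (s + t) + (Q t s + Q t s) := by abel
      have h6 : Q t s + (Q t s + Q u' (s + t)) = Q t s + Q t s := by rw [hx1]
      rw [← add_assoc, z2_add_self, zero_add] at h6
      exact h6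
  have hub' : Q b (u + b) = 0 := by rw [map_add, hbu, ha, add_zero]
  have e1 : Q (u + b) s = Q u s + Q t s := by rw [map_add, LinearMap.add_apply, ← hc]
  rcases key u hbu with h1 | h1
  · have h3 : Q (u + b) s = 0 := by rw [e1, h1, z2_add_self]
    rcases key (u + b) hub' with h4 | h4
    · rw [h3] at h4
      rcases ht.2 s h4.symm with h5 | h5
      · exact hs1 h5
      · rw [h5, ha] at hc
        exact hbt hc.symm
    · rw [map_add (Q (u + b)), h3, zero_add, hs] at h4
      rcases ht.2 _ h4 with h5 | h5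
      · exact hub (z2_eq h5)
      · rw [h5] at hub'
        exact hbt hub'
  · rcases key (u + b) hub' with h4 | h4
    · rw [e1] at h4
      have h5 : Q u s = 0 := by simpa using h4
      rw [map_add, h5, zero_add, hs] at h1
      rcases ht.2 _ h1 with h6 | h6
      · exact hu0 h6
      · rw [h6] at hbu
        exact hbt hbu
    · rw [map_add Q u b, LinearMap.add_apply, h1, zero_add, map_add] at h4
      have h5 : Q b s = Q b t := z2_eq h4
      have h6 : Q t (s + b) = 0 := by rw [map_add, hc, h5, hs t b, z2_add_self]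
      rcases ht.2 _ h6 with h7 | h7
      · have h8 : s = b := z2_eq h7
        rw [← h5, h8, ha] at hbt
        exact hbt rfl
      · apply hs2
        rw [← h7]
        have : s + b + b = s + (b + b) := by abel
        rw [this, z2_add_self, add_zero]

/-- in a nondegenerate local structure there is only one nonzero value -/
theorem loc_val (hs : ∀ v w, Q v w = Q w v)
    (hloc : ∀ v w w', Q v w = 0 ∨ Q v w' = 0 ∨ Q v (w + w') = 0) (v w v' w' : L)
    (h : Q v w ≠ 0) (h' : Q v' w' ≠ 0) : Q v w = Q v' w' := by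
  have key : ∀ a b b', Q a b ≠ 0 → Q a b' ≠ 0 → Q a b = Q a b' := by
    intro a b b' h1 h3
    rcases hloc a b b' with h4 | h4 | h4
    · exact absurd h4 h1
    · exact absurd h4 h3
    · rw [map_add] at h4
      exact z2_eq h4
  obtain ⟨u, h1, h3⟩ : ∃ u, Q v u ≠ 0 ∧ Q v' u ≠ 0 := by
    by_cases h1 : Q v w' = 0
    · by_cases h3 : Q v' w = 0
      · exact ⟨w + w', by rw [map_add, h1, add_zero]; exact h, by rw [map_add, h3, zero_add]; exact h'⟩
      · exact ⟨w, h, h3⟩
    · exact ⟨w', h1, h'⟩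
  rw [key v w u h h1, key v' w' u h' h3, hs v u, hs v' u]
  exact key u v v' (by rw [hs]; exact h1) (by rw [hs]; exact h3)

end

/-! ### Fields -/

section
variable {F K : Type} [Field F] [Field K] [Algebra F K] {E : QD F K}

theorem ordf_q {φ : VV F →ₗ[ZMod 2] ZMod 2} (h2 : Two F) (hφ : Ordf F φ) (X : FX E) (a b : VV F)
    (h : X.q a b = 0) : φ a * φ b = 0 := by
  apply hφ.zh
  obtain ⟨a, rfl⟩ := vm_surj a
  obtain ⟨b, rfl⟩ := vm_surj b
  rw [X.q_zero] at h
  rwa [zh_iff h2]

/-- local without rigid elements: impossible for an ordered field -/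
theorem ord_loc (h2 : Two F) (hx : E.x = -1) (hf : Finite (VV F)) (X : FX E)
    (hloc : ∀ v w w' : VV K, X.Q v w = 0 ∨ X.Q v w' = 0 ∨ X.Q v (w + w') = 0)
    (hnd : ∀ v : VV K, (∀ w, X.Q v w = 0) → v = 0) (hne : ∃ w : VV K, w ≠ 0)
    (hnr : ¬ ∃ t, Rg X.Q t) (φ : VV F →ₗ[ZMod 2] ZMod 2) (hφ : Ordf F φ) : False := by
  have hq := ordf_q h2 hφ X
  have hfd : FiniteDimensional (ZMod 2) (VV F) := Module.Finite.of_finite
  have hφe : φ (vm (-1)) = 1 := hφ.neg
  have hVe : ∀ n, X.q (vm (-1)) n = 0 → φ n = 0 := by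
    intro n hn
    have := hq _ _ hn
    rwa [hφe, one_mul] at this
  have hee : X.q (vm (-1)) (vm (-1)) ≠ 0 := by
    intro h
    have := hVe _ h
    rw [hφe] at this
    exact absurd this (by decide)
  -- some corestriction is not zero
  have hcor : ∃ w y, X.cor (X.Q w y) ≠ 0 := by
    by_contra hcon
    push Not at hcon
    obtain ⟨t, ht⟩ := hne
    exact hnr ⟨t, ht, fun v hv => py4 h2 hx hf X (fun v hv => lrd h2 hx X hnd hcon v hv) hloc hnd
      t ht v hv⟩
  obtain ⟨w0, y0, hγ⟩ := hcor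
  have hc0 : X.Q w0 y0 ≠ 0 := by
    intro h
    rw [h, map_zero] at hγ
    exact hγ rfl
  have hval : ∀ v w, X.Q v w = 0 ∨ X.Q v w = X.Q w0 y0 := by
    intro v w
    by_cases h : X.Q v w = 0
    · exact Or.inl h
    · exact Or.inr (loc_val X.Q_symm hloc v w w0 y0 h hc0)
  have hsc : X.sC (X.Q w0 y0) = X.Q w0 y0 := by
    rw [X.sC_Q]
    rcases hval (X.σ w0) (X.σ y0) with h | h
    · exfalso
      apply hγ
      rw [← X.cor_sC, X.sC_Q, h, map_zero]
    · exact h
  have hrb : X.rb (X.cor (X.Q w0 y0)) = 0 := by rw [X.rb_cor, hsc, z2_add_self]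
  have hN : ∀ w f, X.q (X.N w) f = 0 ∨ X.q (X.N w) f = X.cor (X.Q w0 y0) := by
    intro w f
    rw [← X.cor_Q]
    rcases hval w (X.res f) with h | h
    · left; rw [h, map_zero]
    · right; rw [h]
  have hN0 : ∀ w f, X.q (X.N w) f = 0 → X.Q w (X.res f) = 0 := by
    intro w f h
    rcases hval w (X.res f) with h1 | h1
    · exact h1
    · rw [← X.cor_Q, h1] at h
      exact absurd h hγ
  -- the norms have index two
  obtain ⟨ψ, hψ⟩ : ∃ ψ : EWH.BQ F →ₗ[ZMod 2] ZMod 2, ψ (X.cor (X.Q w0 y0)) ≠ 0 := by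
    by_contra hcon
    push Not at hcon
    exact hγ ((Module.forall_dual_apply_eq_zero_iff (ZMod 2) _).1 hcon)
  obtain ⟨Ve, hVed⟩ : ∃ Ve : Submodule (ZMod 2) (VV F), Ve = LinearMap.ker (X.q (vm (-1))) :=
    ⟨_, rfl⟩
  have hVem : ∀ n, n ∈ Ve ↔ X.q (vm (-1)) n = 0 := by
    intro n; rw [hVed, LinearMap.mem_ker]
  let T : VV F →ₗ[ZMod 2] (Module.Dual (ZMod 2) Ve) :=
    (LinearMap.lcomp (ZMod 2) (ZMod 2) Ve.subtype) ∘ₗ (X.q.compr₂ ψ)
  have hT : ∀ a (n : Ve), T a n = ψ (X.q a n) := fun a n => rfl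
  have hkT : LinearMap.ker T ≤ Submodule.span (ZMod 2) {(vm (-1) : VV F)} := by
    intro a ha
    rw [LinearMap.mem_ker] at ha
    have h1 : X.res a = 0 := by
      apply hnd
      intro w
      rw [X.Q_symm]
      apply hN0
      have h3 : X.N w ∈ Ve := by
        rw [hVem, ← hx, X.im_N]
        exact ⟨w, rfl⟩
      have h4 : T a ⟨_, h3⟩ = 0 := by rw [ha]; rfl
      rw [hT] at h4
      rcases hN w a with h5 | h5
      · exact h5
      · exfalso
        apply hψ
        rw [← h5, X.q_symm]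
        exact h4
    rw [X.ker_res, hx] at h1
    rcases h1 with rfl | rfl
    · exact Submodule.zero_mem _
    · exact Submodule.mem_span_singleton_self _
  have he0 : (vm (-1) : VV F) ≠ 0 := by
    intro h
    rw [h, map_zero] at hφe
    exact absurd hφe (by decide)
  have r1 := LinearMap.finrank_range_add_finrank_ker T
  have r2 : finrank (ZMod 2) (LinearMap.range T) ≤ finrank (ZMod 2) Ve := by
    have := Submodule.finrank_le (LinearMap.range T)
    rwa [Subspace.dual_finrank_eq] at this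
  have r3 := Submodule.finrank_mono hkT
  rw [finrank_span_singleton he0] at r3
  have r4 := Submodule.finrank_sup_add_finrank_inf_eq Ve (Submodule.span (ZMod 2) {(vm (-1) : VV F)})
  have hc2 : ∀ c : ZMod 2, c = 0 ∨ c = 1 := by decide
  have r5 : Ve ⊓ Submodule.span (ZMod 2) {(vm (-1) : VV F)} = ⊥ := by
    rw [eq_bot_iff]
    rintro s ⟨h1, h3⟩
    rw [SetLike.mem_coe, Submodule.mem_span_singleton] at h3
    obtain ⟨c, rfl⟩ := h3
    rcases hc2 c with rfl | rfl
    · rw [zero_smul]; exact Submodule.zero_mem _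
    · rw [one_smul, SetLike.mem_coe, hVem] at h1
      exact absurd h1 hee
  rw [r5, finrank_bot, finrank_span_singleton he0] at r4
  have r6 : Ve ⊔ Submodule.span (ZMod 2) {(vm (-1) : VV F)} = ⊤ := by
    apply Submodule.eq_top_of_finrank_eq
    apply le_antisymm (Submodule.finrank_le _)
    omega
  have hsplit : ∀ x : VV F, X.q (vm (-1)) x = 0 ∨ X.q (vm (-1)) x = X.q (vm (-1)) (vm (-1)) := by
    intro x
    have hx' : x ∈ Ve ⊔ Submodule.span (ZMod 2) {(vm (-1) : VV F)} := by
      rw [r6]; exact Submodule.mem_top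
    rw [Submodule.mem_sup] at hx'
    obtain ⟨n, hn, s, hs, rfl⟩ := hx'
    rw [hVem] at hn
    rw [Submodule.mem_span_singleton] at hs
    obtain ⟨c, rfl⟩ := hs
    rw [map_add, hn, zero_add]
    rcases hc2 c with rfl | rfl
    · left; rw [zero_smul, map_zero]
    · right; rw [one_smul]
  -- a norm `n` with `q n f = γ`
  obtain ⟨f, hf0⟩ : ∃ f, X.res f ≠ 0 := by
    by_contra hcon
    push Not at hcon
    have h1 : ∀ u : VV F, u = 0 ∨ u = vm (-1) := by
      intro u
      have := hcon u
      rwa [X.ker_res, hx] at this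
    obtain ⟨w, hw⟩ := hne
    apply hw
    have h3 : X.N w = 0 := by
      rcases h1 (X.N w) with h | h
      · exact h
      · exfalso
        have h4 : X.q (vm (-1)) (X.N w) = 0 := by
          rw [← hx, X.im_N]; exact ⟨w, rfl⟩
        rw [h] at h4
        exact hee h4
    rw [X.ker_N] at h3
    obtain ⟨u, rfl⟩ := h3
    exact hcon u
  obtain ⟨w, hw⟩ : ∃ w, X.Q (X.res f) w ≠ 0 := by
    by_contra hcon
    push Not at hcon
    exact hf0 (hnd _ hcon)
  have hn1 : X.q (X.N w) f = X.cor (X.Q w0 y0) := by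
    rcases hN w f with h | h
    · exfalso
      apply hw
      rw [X.Q_symm]
      exact hN0 w f h
    · exact h
  have hn2 : X.q (vm (-1)) (X.N w) = 0 := by
    rw [← hx, X.im_N]; exact ⟨w, rfl⟩
  -- `γ` is a value of `e`
  have h3 : X.Q (X.res (X.N w)) (X.res f) = 0 := by rw [← X.rb_q, hn1, hrb]
  rw [X.F3, hx] at h3
  obtain ⟨z, hz⟩ := h3
  obtain ⟨x, hx1, hx2⟩ := X.q_link _ _ _ _ hz
  have h4 : X.q (X.N w + vm (-1)) x = 0 := by
    rw [map_add, LinearMap.add_apply, hx1, hx2, z2_add_self]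
  have h5 := hq _ _ h4
  rw [map_add, hVe _ hn2, hφe, zero_add, one_mul] at h5
  have h6 : X.q (vm (-1)) x ≠ 0 := by
    rw [hx2, hn1]; exact hγ
  have h7 : X.q (vm (-1)) (x + vm (-1)) = 0 := by
    rw [map_add]
    rcases hsplit x with h | h
    · exact absurd h h6
    · rw [h, z2_add_self]
  have h8 := hVe _ h7
  rw [map_add, h5, hφe] at h8
  exact absurd h8 (by decide)

/-- TPAIR: tight pairs -/
theorem tpair (h2 : Two F) (hx : E.x = -1) (hf : Finite (VV F)) (X : FX E)
    (hlr : (∀ v w w' : VV K, X.Q v w = 0 ∨ X.Q v w' = 0 ∨ X.Q v (w + w') = 0) ∨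
      ∃ t, Rg X.Q t)
    (hnd : ∀ v : VV K, (∀ w, X.Q v w = 0) → v = 0) (hne : ∃ w : VV K, w ≠ 0)
    (φ : VV F →ₗ[ZMod 2] ZMod 2) (hφ : Ordf F φ) : TPair F φ := by
  have hq := ordf_q h2 hφ X
  have hφe : φ (vm (-1)) = 1 := hφ.neg
  have hVe : ∀ n, X.q (vm (-1)) n = 0 → φ n = 0 := by
    intro n hn
    have := hq _ _ hn
    rwa [hφe, one_mul] at this
  have hee : X.q (vm (-1)) (vm (-1)) ≠ 0 := by
    intro h
    have := hVe _ h
    rw [hφe] at this
    exact absurd this (by decide)
  have halt : ∀ v, X.Q v v = 0 := by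
    intro v
    rw [X.Q_self, m1_K h2 hx, map_zero]
  have hqe : ∀ w, X.q (vm (-1)) (X.N w) = 0 := by
    intro w
    rw [← hx, X.im_N]; exact ⟨w, rfl⟩
  have hree : X.res (vm (-1)) = 0 := by
    rw [X.ker_res, hx]
    exact Or.inr rfl
  -- a rigid element
  obtain ⟨t, ht⟩ : ∃ t, Rg X.Q t := by
    by_contra hcon
    rcases hlr with h | h
    · exact ord_loc h2 hx hf X h hnd hne hcon φ hφ
    · exact hcon h
  -- a rigid element in the image of `res`
  obtain ⟨y, hy⟩ : ∃ y, Rg X.Q (X.res y) := by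
    by_contra hcon
    push Not at hcon
    have h1 : ∀ b, Rg X.Q (t + X.res b) := by
      intro b
      by_cases hb : X.res b = 0
      · rw [hb, add_zero]; exact ht
      · exact rg_add X.Q_symm halt X.Q_link t _ ht hb (hcon b)
    have h3 : ∀ w, ∃ f, w = X.res f ∨ w = t + X.res f := by
      intro w
      obtain ⟨b, c, hbc⟩ := X.F5 t w
      rcases (h1 b).2 _ hbc with h4 | h4
      · exact ⟨c, Or.inl (z2_eq h4)⟩
      · refine ⟨b + c, Or.inr ?_⟩
        rw [map_add]
        have : w = (w + X.res c) + X.res c := by rw [add_assoc, z2_add_self, add_zero]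
        rw [this, h4, add_assoc]
    have hn0 : X.N t ≠ 0 := by
      intro h
      rw [X.ker_N] at h
      obtain ⟨b, hb⟩ := h
      exact hcon b (by rw [hb]; exact ht)
    have h4 : X.q (X.N t) (X.N t) = 0 := by
      rw [X.q_self, X.q_symm]
      exact hqe t
    obtain ⟨f, hf4⟩ := X.F4 _ _ h4
    rw [X.Q_symm] at hf4
    rcases (h1 f).2 _ hf4 with h5 | h5
    · rw [X.ker_res, hx] at h5
      rcases h5 with h5 | h5
      · exact hn0 h5
      · have := hqe t
        rw [h5] at this
        exact hee this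
    · apply hcon (X.N t + f)
      rw [map_add, h5, add_assoc, z2_add_self, add_zero]
      exact ht
  -- positive
  obtain ⟨y, hy, hφy⟩ : ∃ y, Rg X.Q (X.res y) ∧ φ y = 0 := by
    have hc2 : ∀ c : ZMod 2, c = 0 ∨ c = 1 := by decide
    rcases hc2 (φ y) with h | h
    · exact ⟨y, hy, h⟩
    · refine ⟨y + vm (-1), ?_, ?_⟩
      · rw [map_add, hree, add_zero]; exact hy
      · rw [map_add, h, hφe]; decide
  -- the orthogonal of `y` and of `y + e`
  have hV : ∀ y, Rg X.Q (X.res y) → X.q (vm (-1)) y ≠ 0 ∧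
      ∀ s, X.q y s = 0 → s = 0 ∨ s = y + vm (-1) := by
    intro y hy
    have hy0 : y ≠ 0 := by
      rintro rfl
      exact hy.1 (map_zero _)
    have h1 : X.q (vm (-1)) y ≠ 0 := by
      intro h
      rw [← hx, X.im_N] at h
      obtain ⟨w, hw⟩ := h
      have h3 : X.q y (X.N w) = 0 := by
        rw [hw, X.q_self, X.q_symm, ← hw]
        exact hqe w
      obtain ⟨f, hf⟩ := X.F4 _ _ h3
      rcases hy.2 _ hf with h4 | h4
      · have h5 : w = X.res f := z2_eq h4
        rw [h5, X.N_res] at hw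
        exact hy0 hw.symm
      · have h5 : w = X.res (y + f) := by
          rw [map_add, ← h4, add_assoc, z2_add_self, add_zero]
        rw [h5, X.N_res] at hw
        exact hy0 hw.symm
    refine ⟨h1, ?_⟩
    intro s hs
    have h3 : X.Q (X.res y) (X.res s) = 0 := by rw [← X.rb_q, hs, map_zero]
    rcases hy.2 _ h3 with h4 | h4
    · rw [X.ker_res, hx] at h4
      rcases h4 with h4 | h4
      · exact Or.inl h4
      · exfalso
        rw [h4, X.q_symm] at hs
        exact h1 hs
    · have h5 : X.res (s + y) = 0 := by rw [map_add, h4, z2_add_self]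
      rw [X.ker_res, hx] at h5
      rcases h5 with h5 | h5
      · exfalso
        rw [z2_eq h5, X.q_self, X.q_symm] at hs
        exact h1 hs
      · right
        rw [← h5]
        have : y + (s + y) = s + (y + y) := by abel
        rw [this, z2_add_self, add_zero]
  have hy' : Rg X.Q (X.res (y + vm (-1))) := by
    rw [map_add, hree, add_zero]; exact hy
  -- a second positive element
  obtain ⟨z, hφz, hz0, hzy⟩ : ∃ z, φ z = 0 ∧ z ≠ 0 ∧ z ≠ y := by
    by_contra hcon
    push Not at hcon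
    have h1 : ∀ v, v = 0 ∨ v = y ∨ v = vm (-1) ∨ v = y + vm (-1) := by
      intro v
      have hc2 : ∀ c : ZMod 2, c = 0 ∨ c = 1 := by decide
      rcases hc2 (φ v) with h | h
      · by_cases h3 : v = 0
        · exact Or.inl h3
        · exact Or.inr (Or.inl (hcon v h h3))
      · have h4 : φ (v + vm (-1)) = 0 := by rw [map_add, h, hφe]; decide
        by_cases h3 : v + vm (-1) = 0
        · exact Or.inr (Or.inr (Or.inl (z2_eq h3)))
        · right; right; right
          rw [← hcon _ h4 h3, add_assoc, z2_add_self, add_zero]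
    have h3 : ∀ w, X.N w = 0 := by
      intro w
      rcases h1 (X.N w) with h | h | h | h
      · exact h
      · exfalso
        have := hqe w
        rw [h] at this
        exact (hV y hy).1 this
      · exfalso
        have := hqe w
        rw [h] at this
        exact hee this
      · exfalso
        have := hqe w
        rw [h] at this
        exact (hV _ hy').1 this
    apply hy.1
    apply hnd
    intro w
    have h4 := h3 w
    rw [X.ker_N] at h4
    obtain ⟨v, rfl⟩ := h4
    rcases h1 v with rfl | rfl | rfl | rfl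
    · rw [map_zero, map_zero]
    · exact halt _
    · rw [hree, map_zero]
    · rw [map_add, hree, add_zero]
      exact halt _
  -- the tight pair
  have hzq : ∀ a b : VV F, Zh F a b → X.q a b = 0 := by
    intro a b h
    obtain ⟨a, rfl⟩ := vm_surj a
    obtain ⟨b, rfl⟩ := vm_surj b
    rw [zh_iff h2] at h
    rw [X.q_zero]
    exact h
  refine ⟨y, z, hφy, hφz, ?_⟩
  intro s h1 h3
  rcases (hV y hy).2 s (hzq _ _ h1) with h4 | h4
  · exact h4
  · exfalso
    have h5 := hzq _ _ h3
    rw [h4, X.q_symm] at h5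
    rcases (hV _ hy').2 z h5 with h6 | h6
    · exact hz0 h6
    · apply hzy
      rw [h6, add_assoc, z2_add_self, add_zero]

end

end Pool.Agent.EVZ
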