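import Pool.Agent.EVZ.ORD

/-!
The common field of two orderings (Zorn's lemma on subrings of `A × B`).
-/

set_option autoImplicit false

namespace Pool.Agent.EVZ

open Pool.Agent.EWG (VV vm iu QD vm_surj vm_mul vm_eq_zero vm_eq_iff)
open Pool.Agent.ETG (vmap Zh)
open Pool.Agent.EWH (Two pf br pf1)

section
variable (F : Type) {A B : Type} [Field F] [Field A] [Field B] [Algebra F A] [Algebra F B]
  (α : VV A →ₗ[ZMod 2] ZMod 2) (β : VV B →ₗ[ZMod 2] ZMod 2)

/-- subrings of `A × B` which are common subfields with the same ordering -/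
structure GG (G : Subring (A × B)) : Prop where
  alg : ∀ c : F, (algebraMap F A c, algebraMap F B c) ∈ G
  fld : ∀ p ∈ G, p ≠ 0 → p.1 ≠ 0 ∧ p.2 ≠ 0 ∧ (p.1⁻¹, p.2⁻¹) ∈ G
  ord : ∀ p ∈ G, ∀ (a : Aˣ) (b : Bˣ), (a : A) = p.1 → (b : B) = p.2 → α (vm a) = β (vm b)

variable {F α β}

/-- the base -/
theorem gg_base (h : ∀ a : Fˣ, α (vm (iu F a)) = β (vm (iu F a))) :
    GG F α β (RingHom.prod (algebraMap F A) (algebraMap F B)).range where
  alg c := ⟨c, rfl⟩
  fld := by
    rintro _ ⟨c, rfl⟩ hc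
    have hc0 : c ≠ 0 := by rintro rfl; exact hc (map_zero _)
    refine ⟨?_, ?_, c⁻¹, ?_⟩
    · exact (map_ne_zero (algebraMap F A)).2 hc0
    · exact (map_ne_zero (algebraMap F B)).2 hc0
    · show (algebraMap F A c⁻¹, algebraMap F B c⁻¹) =
        ((algebraMap F A c)⁻¹, (algebraMap F B c)⁻¹)
      rw [map_inv₀, map_inv₀]
  ord := by
    rintro _ ⟨c, rfl⟩ a b ha hb
    have ha' : (a : A) = algebraMap F A c := ha
    have hb' : (b : B) = algebraMap F B c := hb
    have hc0 : c ≠ 0 := by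
      rintro rfl
      rw [map_zero] at ha'
      exact a.ne_zero ha'
    have h1 : a = iu F (Units.mk0 c hc0) := by ext; rw [ha']; rfl
    have h2 : b = iu F (Units.mk0 c hc0) := by ext; rw [hb']; rfl
    rw [h1, h2]
    exact h _

/-- unions of chains -/
theorem gg_chain (c : Set (Subring (A × B))) (hc : ∀ G ∈ c, GG F α β G)
    (hch : IsChain (· ≤ ·) c) (hne : c.Nonempty) : GG F α β (sSup c) := by
  have hd : DirectedOn (· ≤ ·) c := hch.directedOn
  have hm : ∀ x, x ∈ sSup c ↔ ∃ s ∈ c, x ∈ s := fun x =>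
    Subring.mem_sSup_of_directedOn hne hd
  refine ⟨?_, ?_, ?_⟩
  · intro a
    obtain ⟨G, hG⟩ := hne
    exact (hm _).2 ⟨G, hG, (hc G hG).alg a⟩
  · intro p hp h0
    obtain ⟨G, hG, hpG⟩ := (hm _).1 hp
    obtain ⟨h1, h2, h3⟩ := (hc G hG).fld p hpG h0
    exact ⟨h1, h2, (hm _).2 ⟨G, hG, h3⟩⟩
  · intro p hp a b ha hb
    obtain ⟨G, hG, hpG⟩ := (hm _).1 hp
    exact (hc G hG).ord p hpG a b ha hb

/-- adjoining a square root -/
def adj (G : Subring (A × B)) (P : A × B) (hP : P * P ∈ G) : Subring (A × B) where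
  carrier := {x | ∃ p ∈ G, ∃ q ∈ G, x = p + q * P}
  zero_mem' := ⟨0, G.zero_mem, 0, G.zero_mem, by ring⟩
  one_mem' := ⟨1, G.one_mem, 0, G.zero_mem, by ring⟩
  add_mem' := by
    rintro _ _ ⟨p, hp, q, hq, rfl⟩ ⟨p', hp', q', hq', rfl⟩
    exact ⟨p + p', G.add_mem hp hp', q + q', G.add_mem hq hq', by ring⟩
  neg_mem' := by
    rintro _ ⟨p, hp, q, hq, rfl⟩
    exact ⟨-p, G.neg_mem hp, -q, G.neg_mem hq, by ring⟩
  mul_mem' := by
    rintro _ _ ⟨p, hp, q, hq, rfl⟩ ⟨p', hp', q', hq', rfl⟩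
    exact ⟨p * p' + q * q' * (P * P), G.add_mem (G.mul_mem hp hp')
      (G.mul_mem (G.mul_mem hq hq') hP), p * q' + q * p',
      G.add_mem (G.mul_mem hp hq') (G.mul_mem hq hp'), by ring⟩

theorem gg_adj (hREL : EWH.Stmt_REL) (hPFZ : EWH.Stmt_PFZ) (hA : Two A) (hB : Two B)
    (hα : Ordf A α) (hβ : Ordf B β) (G : Subring (A × B)) (hG : GG F α β G)
    (ρ : Aˣ) (ρ' : Bˣ) (hP : (((ρ : A), (ρ' : B)) : A × B) * ((ρ : A), (ρ' : B)) ∈ G)
    (hρ : α (vm ρ) = β (vm ρ')) (hns : ∀ s ∈ G, s * s ≠ ((ρ : A), (ρ' : B)) * ((ρ : A), (ρ' : B))) :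
    GG F α β (adj G _ hP) := by
  obtain ⟨P, hPd⟩ : ∃ P : A × B, P = ((ρ : A), (ρ' : B)) := ⟨_, rfl⟩
  have hP1 : P.1 = ρ := by rw [hPd]
  have hP2 : P.2 = ρ' := by rw [hPd]
  have hPG : P * P ∈ G := by rw [hPd]; exact hP
  have hns' : ∀ s ∈ G, s * s ≠ P * P := by rw [hPd]; exact hns
  have hmem : ∀ x, x ∈ adj G _ hP ↔ ∃ p ∈ G, ∃ q ∈ G, x = p + q * P := by
    intro x; rw [hPd]; rfl
  -- the norm
  have hN : ∀ p ∈ G, ∀ q ∈ G, p + q * P ≠ 0 → p * p - q * q * (P * P) ∈ G ∧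
      p * p - q * q * (P * P) ≠ 0 := by
    intro p hp q hq h0
    refine ⟨G.sub_mem (G.mul_mem hp hp) (G.mul_mem (G.mul_mem hq hq) hPG), ?_⟩
    intro h
    by_cases hq0 : q = 0
    · subst hq0
      have hp0 : p ≠ 0 := by
        rintro rfl
        exact h0 (by ring)
      obtain ⟨h1, -, -⟩ := hG.fld p hp hp0
      have : (p * p - 0 * 0 * (P * P)).1 = 0 := by rw [h]; rfl
      have h3 : p.1 * p.1 = 0 := by
        have h4 : (p * p - 0 * 0 * (P * P)).1 = p.1 * p.1 := by simp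
        rw [← h4, this]
      exact h1 (mul_self_eq_zero.1 h3)
    · obtain ⟨h1, h2, h3⟩ := hG.fld q hq hq0
      refine hns' (p * (q.1⁻¹, q.2⁻¹)) (G.mul_mem hp h3) ?_
      have h4 : p * p = q * q * (P * P) := sub_eq_zero.1 h
      have h5 : q * (q.1⁻¹, q.2⁻¹) = 1 := by
        ext
        · exact mul_inv_cancel₀ h1
        · exact mul_inv_cancel₀ h2
      calc p * (q.1⁻¹, q.2⁻¹) * (p * (q.1⁻¹, q.2⁻¹)) =
          (p * p) * ((q.1⁻¹, q.2⁻¹) * (q.1⁻¹, q.2⁻¹)) := by ring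
        _ = (q * (q.1⁻¹, q.2⁻¹)) * (q * (q.1⁻¹, q.2⁻¹)) * (P * P) := by rw [h4]; ring
        _ = P * P := by rw [h5]; ring
  refine ⟨?_, ?_, ?_⟩
  · intro c
    exact (hmem _).2 ⟨_, hG.alg c, 0, G.zero_mem, by ring⟩
  · intro x hx h0
    obtain ⟨p, hp, q, hq, rfl⟩ := (hmem _).1 hx
    obtain ⟨hNG, hN0⟩ := hN p hp q hq h0
    obtain ⟨h1, h2, h3⟩ := hG.fld _ hNG hN0
    have e1 : p * p - q * q * (P * P) = (p + q * P) * (p - q * P) := by ring
    have h4 : (p + q * P).1 ≠ 0 := by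
      intro h
      apply h1
      rw [e1]
      show (p + q * P).1 * (p - q * P).1 = 0
      rw [h, zero_mul]
    have h5 : (p + q * P).2 ≠ 0 := by
      intro h
      apply h2
      rw [e1]
      show (p + q * P).2 * (p - q * P).2 = 0
      rw [h, zero_mul]
    refine ⟨h4, h5, (hmem _).2 ?_⟩
    obtain ⟨M, hM⟩ : ∃ M : A × B, M = ((p * p - q * q * (P * P)).1⁻¹,
      (p * p - q * q * (P * P)).2⁻¹) := ⟨_, rfl⟩
    rw [← hM] at h3
    refine ⟨p * M, G.mul_mem hp h3, -(q * M), G.neg_mem (G.mul_mem hq h3), ?_⟩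
    have e2 : (p * p - q * q * (P * P)) * M = 1 := by
      rw [hM]
      ext
      · exact mul_inv_cancel₀ h1
      · exact mul_inv_cancel₀ h2
    have e3 : (p + q * P) * (p * M + -(q * M) * P) = 1 := by
      rw [← e2]; ring
    have e4 : ((p + q * P).1⁻¹, (p + q * P).2⁻¹) * (p + q * P) = (1 : A × B) := by
      ext
      · exact inv_mul_cancel₀ h4
      · exact inv_mul_cancel₀ h5
    calc ((p + q * P).1⁻¹, (p + q * P).2⁻¹)
        = ((p + q * P).1⁻¹, (p + q * P).2⁻¹) * ((p + q * P) * (p * M + -(q * M) * P)) := by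
          rw [e3, mul_one]
      _ = p * M + -(q * M) * P := by rw [← mul_assoc, e4, one_mul]
  · intro x hx a b ha hb
    obtain ⟨p, hp, q, hq, rfl⟩ := (hmem _).1 hx
    have ha' : (a : A) = p.1 + q.1 * ρ := by rw [ha, ← hP1]; rfl
    have hb' : (b : B) = p.2 + q.2 * ρ' := by rw [hb, ← hP2]; rfl
    by_cases hq0 : q = 0
    · subst hq0
      refine hG.ord p hp a b ?_ ?_
      · rw [ha']; simp
      · rw [hb']; simp
    obtain ⟨hq1, hq2, -⟩ := hG.fld q hq hq0
    -- `u ρ`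
    have hqq : α (vm (Units.mk0 q.1 hq1)) = β (vm (Units.mk0 q.2 hq2)) :=
      hG.ord q hq _ _ rfl rfl
    have hqr : α (vm (Units.mk0 q.1 hq1 * ρ)) = β (vm (Units.mk0 q.2 hq2 * ρ')) := by
      rw [vm_mul, vm_mul, map_add, map_add, hqq, hρ]
    by_cases hp0 : p = 0
    · subst hp0
      have h1 : a = Units.mk0 q.1 hq1 * ρ := by ext; rw [ha']; simp
      have h2 : b = Units.mk0 q.2 hq2 * ρ' := by ext; rw [hb']; simp
      rw [h1, h2, hqr]
    obtain ⟨hp1, hp2, -⟩ := hG.fld p hp hp0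
    have hpp : α (vm (Units.mk0 p.1 hp1)) = β (vm (Units.mk0 p.2 hp2)) :=
      hG.ord p hp _ _ rfl rfl
    by_cases hs : α (vm (Units.mk0 p.1 hp1)) = α (vm (Units.mk0 q.1 hq1 * ρ))
    · have k1 := ord_add' hREL hPFZ hA hα (Units.mk0 p.1 hp1) (Units.mk0 q.1 hq1 * ρ) a
        (by rw [ha']; simp) hs
      have k2 := ord_add' hREL hPFZ hB hβ (Units.mk0 p.2 hp2) (Units.mk0 q.2 hq2 * ρ') b
        (by rw [hb']; simp) (by rw [← hpp, hs, hqr])
      rw [k1, k2, hpp]
    · -- different signs: use the conjugate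
      have h0 : p + q * P ≠ 0 := by
        intro h
        have : (p + q * P).1 = 0 := by rw [h]; rfl
        rw [← ha] at this
        exact a.ne_zero this
      obtain ⟨hNG, hN0⟩ := hN p hp q hq h0
      obtain ⟨hN1, hN2, -⟩ := hG.fld _ hNG hN0
      have hNN : α (vm (Units.mk0 _ hN1)) = β (vm (Units.mk0 _ hN2)) :=
        hG.ord _ hNG _ _ rfl rfl
      have e1 : p * p - q * q * (P * P) = (p + q * P) * (p - q * P) := by ring
      have f1 : (p * p - q * q * (P * P)).1 = a * (p.1 - q.1 * ρ) := by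
        rw [e1, ha]
        show (p + q * P).1 * (p - q * P).1 = _
        rw [show (p - q * P).1 = p.1 - q.1 * ρ from by rw [← hP1]; rfl]
      have f2 : (p * p - q * q * (P * P)).2 = b * (p.2 - q.2 * ρ') := by
        rw [e1, hb]
        show (p + q * P).2 * (p - q * P).2 = _
        rw [show (p - q * P).2 = p.2 - q.2 * ρ' from by rw [← hP2]; rfl]
      have g1 : p.1 - q.1 * ρ ≠ 0 := by
        intro h; apply hN1; rw [f1, h, mul_zero]
      have g2 : p.2 - q.2 * ρ' ≠ 0 := by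
        intro h; apply hN2; rw [f2, h, mul_zero]
      have k1 : α (vm (Units.mk0 _ g1)) = α (vm (Units.mk0 p.1 hp1)) := by
        refine ord_add' hREL hPFZ hA hα _ (-(Units.mk0 q.1 hq1 * ρ)) _ ?_ ?_
        · show p.1 - q.1 * ρ = p.1 + -(q.1 * ρ)
          ring
        · rw [ord_neg hα]
          revert hs
          generalize α (vm (Units.mk0 p.1 hp1)) = x
          generalize α (vm (Units.mk0 q.1 hq1 * ρ)) = y
          revert x y
          decide
      have k2 : β (vm (Units.mk0 _ g2)) = β (vm (Units.mk0 p.2 hp2)) := by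
        refine ord_add' hREL hPFZ hB hβ _ (-(Units.mk0 q.2 hq2 * ρ')) _ ?_ ?_
        · show p.2 - q.2 * ρ' = p.2 + -(q.2 * ρ')
          ring
        · rw [ord_neg hβ]
          rw [hpp, hqr] at hs
          revert hs
          generalize β (vm (Units.mk0 p.2 hp2)) = x
          generalize β (vm (Units.mk0 q.2 hq2 * ρ')) = y
          revert x y
          decide
      have m1 : Units.mk0 _ hN1 = a * Units.mk0 _ g1 := by
        ext; exact f1
      have m2 : Units.mk0 _ hN2 = b * Units.mk0 _ g2 := by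
        ext; exact f2
      rw [m1, m2, vm_mul, vm_mul, map_add, map_add, k1, k2, hpp] at hNN
      exact add_right_cancel hNN

end

theorem nse_proof (hREL : EWH.Stmt_REL) (hPFZ : EWH.Stmt_PFZ) : Stmt_NSE := by
  intro F A B _ _ _ _ _ h2 α β hα hβ hF
  have hA : Two A := h2.map (algebraMap F A)
  have hB : Two B := h2.map (algebraMap F B)
  obtain ⟨G, -, hGm⟩ := zorn_le_nonempty₀ {G : Subring (A × B) | GG F α β G} (by
    intro c hc hch y hy
    exact ⟨sSup c, gg_chain c (fun G hG => hc hG) hch ⟨y, hy⟩, fun z hz => le_sSup hz⟩) _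
    (gg_base hF)
  have hG : GG F α β G := hGm.prop
  -- the key property of a maximal element
  have key : ∀ (ρ : Aˣ) (ρ' : Bˣ), (((ρ : A), (ρ' : B)) : A × B) * ((ρ : A), (ρ' : B)) ∈ G →
      ∃ s ∈ G, s * s = ((ρ : A), (ρ' : B)) * ((ρ : A), (ρ' : B)) := by
    intro ρ ρ' hP
    by_contra hcon
    push Not at hcon
    -- choose the sign
    obtain ⟨ρ'', hs, he⟩ : ∃ ρ'' : Bˣ, ((ρ'' : B) * ρ'' = ρ' * ρ') ∧ α (vm ρ) = β (vm ρ'') := by
      by_cases h : α (vm ρ) = β (vm ρ')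
      · exact ⟨ρ', rfl, h⟩
      · refine ⟨-ρ', by push_cast; ring, ?_⟩
        rw [ord_neg hβ]
        revert h
        generalize α (vm ρ) = x
        generalize β (vm ρ') = y
        revert x y
        decide
    have e1 : (((ρ : A), (ρ'' : B)) : A × B) * ((ρ : A), (ρ'' : B)) =
        ((ρ : A), (ρ' : B)) * ((ρ : A), (ρ' : B)) := by
      ext
      · rfl
      · exact hs
    have hP' : (((ρ : A), (ρ'' : B)) : A × B) * ((ρ : A), (ρ'' : B)) ∈ G := by rw [e1]; exact hP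
    have h3 := gg_adj hREL hPFZ hA hB hα hβ G hG ρ ρ'' hP' he (by
      intro s hs; rw [e1]; exact hcon s hs)
    have h4 : G ≤ adj G _ hP' := by
      intro p hp
      exact ⟨p, hp, 0, G.zero_mem, by ring⟩
    have h5 := hGm.le_of_ge h3 h4
    have h6 : (((ρ : A), (ρ'' : B)) : A × B) ∈ G :=
      h5 ⟨0, G.zero_mem, 1, G.one_mem, by ring⟩
    exact hcon _ h6 e1
  -- the field
  have hfld : IsField G := by
    refine ⟨⟨0, 1, ?_⟩, mul_comm, ?_⟩
    · intro h
      have : (0 : A × B) = 1 := congrArg Subtype.val h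
      have : (0 : A) = 1 := congrArg Prod.fst this
      exact zero_ne_one this
    · intro a ha
      have ha' : (a : A × B) ≠ 0 := by
        intro h; exact ha (Subtype.ext h)
      obtain ⟨h1, h2, h3⟩ := hG.fld a a.2 ha'
      refine ⟨⟨_, h3⟩, Subtype.ext ?_⟩
      ext
      · exact mul_inv_cancel₀ h1
      · exact mul_inv_cancel₀ h2
  letI iE : Field G := hfld.toField
  let i0 : F →+* G := RingHom.codRestrict (RingHom.prod (algebraMap F A) (algebraMap F B)) G hG.alg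
  letI iA : Algebra F G := i0.toAlgebra
  let f : G →ₐ[F] A := { (RingHom.fst A B).comp G.subtype with
    commutes' := fun c => rfl }
  let g : G →ₐ[F] B := { (RingHom.snd A B).comp G.subtype with
    commutes' := fun c => rfl }
  have hf : ∀ a : G, f a = (a : A × B).1 := fun a => rfl
  have hg : ∀ a : G, g a = (a : A × B).2 := fun a => rfl
  refine ⟨G, iE, iA, f, g, ?_, ?_⟩
  · intro v
    obtain ⟨a, rfl⟩ := vm_surj v
    exact hG.ord (a : G) (a : G).2 _ _ rfl rfl
  · intro v hfv hgv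
    obtain ⟨a, rfl⟩ := vm_surj v
    have h1 : IsSquare (Units.map (f : G →+* A).toMonoidHom a) := (vm_eq_zero _).1 hfv
    have h3 : IsSquare (Units.map (g : G →+* B).toMonoidHom a) := (vm_eq_zero _).1 hgv
    obtain ⟨ρ, hρ⟩ := h1
    obtain ⟨ρ', hρ'⟩ := h3
    have e1 : ((a : G) : A × B).1 = ρ * ρ := by
      have := congrArg Units.val hρ
      exact this
    have e2 : ((a : G) : A × B).2 = ρ' * ρ' := by
      have := congrArg Units.val hρ'
      exact this
    have e3 : ((a : G) : A × B) = ((ρ : A), (ρ' : B)) * ((ρ : A), (ρ' : B)) := by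
      ext
      · exact e1
      · exact e2
    obtain ⟨s, hs, hss⟩ := key ρ ρ' (by rw [← e3]; exact (a : G).2)
    rw [vm_eq_zero]
    have hs0 : (⟨s, hs⟩ : G) ≠ 0 := by
      intro h
      have h7 : s = 0 := congrArg Subtype.val h
      have h8 : ((a : G) : A × B) = 0 := by rw [e3, ← hss, h7, mul_zero]
      exact a.ne_zero (Subtype.ext h8)
    refine ⟨Units.mk0 ⟨s, hs⟩ hs0, ?_⟩
    ext1
    exact Subtype.ext (e3.trans hss.symm)

end Pool.Agent.EVZ
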